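import Pool.Agent.H32.Dense.Iface

/-!
# Module X7a: from the counting form with bounded energy to the discrete form with density

`DenseBound` (bounded logarithmic energy) implies `StrongCount` (two ends at all dyadic scales),
which implies `DenseCount` (no condition on the times but their density).
-/

set_option autoImplicit false

namespace Pool.Agent.H70.Dense

open Finset Real
open Pool.Agent.H32.Dense

variable {d N : ℕ}

/-- The number of cells at time `j`. -/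
noncomputable def cells (M : ℕ) (u : Fin N → Fin d → ℝ) (v : Fin N → Fin d → ℤ)
    (A : Fin N → Finset ℤ) (S : Finset (Fin N)) (j : ℤ) : ℕ :=
  ((S.filter fun i => j ∈ A i).image fun i => rd (pos M (u i) (v i) j)).card

/-- The set of the times of `A` in the dyadic interval number `q` of length `2 ^ l`. -/
def dy (A : Finset ℤ) (l : ℕ) (q : ℤ) : Finset ℤ := A.filter fun y => y / 2 ^ l = q

/-- The inner statement of `StrongCount`. -/
def SC (d : ℕ) (a lam e₀ C : ℝ) : Prop :=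
  ∀ (m N : ℕ) (u : Fin N → Fin d → ℝ) (v : Fin N → Fin d → ℤ)
    (A : Fin N → Finset ℤ) (κ R : ℝ), 0 < κ → Function.Injective v →
    (∀ i k, |v i k| ≤ 2 ^ m) → (∀ i, A i ⊆ Finset.Ico 0 (2 ^ m : ℤ)) →
    (∀ i, κ * 2 ^ m ≤ (A i).card) →
    (∀ i, ∀ l ≤ m, ∀ q : ℤ, (((A i).filter fun y => y / 2 ^ l = q).card : ℝ) ≤
      2 * ((2 : ℝ) ^ l / 2 ^ m) ^ e₀ * (A i).card) →
    (∀ j : ℤ, (((univ.filter fun i => j ∈ A i).image fun i =>
      rd (pos (2 ^ m) (u i) (v i) j)).card : ℝ) ≤ R) →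
    (N : ℝ) ≤ C * κ ^ (-lam) * R ^ a

/-- The counting form for sets of times with two ends at all dyadic scales. -/
def StrongCount (d : ℕ) (a lam : ℝ) : Prop := ∀ e₀ : ℝ, 0 < e₀ → ∃ C : ℝ, 0 < C ∧ SC d a lam e₀ C

lemma cells_le_subset (M : ℕ) (u : Fin N → Fin d → ℝ) (v : Fin N → Fin d → ℤ)
    {A B : Fin N → Finset ℤ} {S T : Finset (Fin N)} (hST : S ⊆ T) (hAB : ∀ i, A i ⊆ B i)
    (j : ℤ) : cells M u v A S j ≤ cells M u v B T j := by
  refine card_le_card (image_subset_image ?_)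
  intro i hi
  rw [mem_filter] at hi ⊢
  exact ⟨hST hi.1, hAB i hi.2⟩

/-- `SC` for a finite set of lines. -/
lemma SC.finset {a lam e₀ C : ℝ} (h : SC d a lam e₀ C) {m : ℕ} {u : Fin N → Fin d → ℝ}
    {v : Fin N → Fin d → ℤ} {A : Fin N → Finset ℤ} {S : Finset (Fin N)} {κ R : ℝ}
    (hκ : 0 < κ) (hinj : Set.InjOn v (S : Set (Fin N))) (hv : ∀ i ∈ S, ∀ k, |v i k| ≤ 2 ^ m)
    (hA : ∀ i ∈ S, A i ⊆ Finset.Ico 0 (2 ^ m : ℤ)) (hcard : ∀ i ∈ S, κ * 2 ^ m ≤ (A i).card)
    (hE : ∀ i ∈ S, ∀ l ≤ m, ∀ q : ℤ, ((dy (A i) l q).card : ℝ) ≤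
      2 * ((2 : ℝ) ^ l / 2 ^ m) ^ e₀ * (A i).card)
    (hR : ∀ j : ℤ, (cells (2 ^ m) u v A S j : ℝ) ≤ R) :
    (S.card : ℝ) ≤ C * κ ^ (-lam) * R ^ a := by
  set e := S.orderEmbOfFin rfl with he
  have hmem : ∀ i, e i ∈ S := fun i => S.orderEmbOfFin_mem rfl i
  refine h m S.card (fun i => u (e i)) (fun i => v (e i)) (fun i => A (e i)) κ R hκ ?_ ?_ ?_ ?_
    ?_ ?_
  · intro i j hij
    exact e.injective (hinj (mem_coe.2 (hmem i)) (mem_coe.2 (hmem j)) hij)
  · exact fun i k => hv _ (hmem i) k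
  · exact fun i => hA _ (hmem i)
  · exact fun i => hcard _ (hmem i)
  · exact fun i => hE _ (hmem i)
  · intro j
    refine le_trans ?_ (hR j)
    have : ((univ.filter fun i => j ∈ A (e i)).image fun i =>
        rd (pos (2 ^ m) (u (e i)) (v (e i)) j)) ⊆
        ((S.filter fun i => j ∈ A i).image fun i => rd (pos (2 ^ m) (u i) (v i) j)) := by
      intro b hb
      rw [mem_image] at hb ⊢
      obtain ⟨i, hi, rfl⟩ := hb
      rw [mem_filter] at hi
      exact ⟨e i, mem_filter.2 ⟨hmem i, hi.2⟩, rfl⟩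
    exact_mod_cast card_le_card this

/-- Pruning the times with many cells. -/
lemma prune {a lam e₀ C : ℝ} (ha : 0 < a) (hC : 0 < C) (h : SC d a lam e₀ C) {m : ℕ}
    {u : Fin N → Fin d → ℝ}
    {v : Fin N → Fin d → ℤ} {A : Fin N → Finset ℤ} {S : Finset (Fin N)} {κ : ℝ}
    (hκ : 0 < κ) (hinj : Set.InjOn v (S : Set (Fin N)))
    (hv : ∀ i ∈ S, ∀ k, |v i k| ≤ 2 ^ m)
    (hA : ∀ i ∈ S, A i ⊆ Finset.Ico 0 (2 ^ m : ℤ)) (hcard : ∀ i ∈ S, κ * 2 ^ m ≤ (A i).card)
    (hE : ∀ i ∈ S, ∀ l ≤ m, ∀ q : ℤ, ((dy (A i) l q).card : ℝ) ≤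
      ((2 : ℝ) ^ l / 2 ^ m) ^ e₀ * (A i).card) :
    κ / 2 * 2 ^ m * ((S.card : ℝ) * (κ / 2) ^ lam / C) ^ (1 / a) ≤
      ∑ j ∈ Finset.Ico 0 (2 ^ m : ℤ), (cells (2 ^ m) u v A S j : ℝ) := by
  have hMr : (0 : ℝ) < 2 ^ m := by positivity
  rcases S.eq_empty_or_nonempty with hS | ⟨i₀, hi₀⟩
  · subst hS
    rw [card_empty, Nat.cast_zero, zero_mul, zero_div,
      Real.zero_rpow (one_div_ne_zero ha.ne'), mul_zero]
    exact sum_nonneg fun _ _ => Nat.cast_nonneg _
  set Rt : ℝ := ∑ j ∈ Finset.Ico 0 (2 ^ m : ℤ), (cells (2 ^ m) u v A S j : ℝ) with hRt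
  have hcpos : ∀ j ∈ A i₀, 1 ≤ cells (2 ^ m) u v A S j := by
    intro j hj
    unfold cells
    rw [Nat.one_le_iff_ne_zero, ← Nat.pos_iff_ne_zero, card_pos]
    exact ⟨_, mem_image_of_mem _ (mem_filter.2 ⟨hi₀, hj⟩)⟩
  have hRtpos : 0 < Rt := by
    have h1 : ((A i₀).card : ℝ) ≤ Rt := by
      calc ((A i₀).card : ℝ) = ∑ j ∈ A i₀, (1 : ℝ) := by simp
        _ ≤ ∑ j ∈ A i₀, (cells (2 ^ m) u v A S j : ℝ) :=
            sum_le_sum fun j hj => by exact_mod_cast hcpos j hj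
        _ ≤ Rt := sum_le_sum_of_subset_of_nonneg (hA i₀ hi₀) fun _ _ _ => Nat.cast_nonneg _
    have h2 := hcard i₀ hi₀
    have : 0 < κ * 2 ^ m := by positivity
    linarith
  set R : ℝ := 2 * Rt / (κ * 2 ^ m) with hR
  have hRpos : 0 < R := by positivity
  set H : Finset ℤ := (Finset.Ico 0 (2 ^ m : ℤ)).filter fun j =>
    R < cells (2 ^ m) u v A S j with hH
  have hHcard : (H.card : ℝ) ≤ κ * 2 ^ m / 2 := by
    have h1 : (H.card : ℝ) * R ≤ Rt := by
      calc (H.card : ℝ) * R = ∑ j ∈ H, R := by simp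
        _ ≤ ∑ j ∈ H, (cells (2 ^ m) u v A S j : ℝ) :=
            sum_le_sum fun j hj => (mem_filter.1 hj).2.le
        _ ≤ Rt := sum_le_sum_of_subset_of_nonneg (filter_subset _ _) fun _ _ _ => Nat.cast_nonneg _
    rw [hR] at h1
    have h3 : 0 < κ * 2 ^ m := by positivity
    rw [mul_div_assoc', div_le_iff₀ h3] at h1
    have : (H.card : ℝ) * 2 ≤ κ * 2 ^ m := by
      by_contra hcon
      push Not at hcon
      have := mul_lt_mul_of_pos_right hcon hRtpos
      nlinarith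
    linarith
  set B : Fin N → Finset ℤ := fun i => (A i).filter fun j => j ∉ H with hB
  have hBA : ∀ i, B i ⊆ A i := fun i => filter_subset _ _
  have hBcard : ∀ i ∈ S, ((A i).card : ℝ) ≤ 2 * (B i).card := by
    intro i hi
    have h1 : (A i).card ≤ (B i).card + H.card := by
      have : A i ⊆ B i ∪ H := by
        intro j hj
        by_cases hjH : j ∈ H
        · exact mem_union_right _ hjH
        · exact mem_union_left _ (mem_filter.2 ⟨hj, hjH⟩)
      exact (card_le_card this).trans (card_union_le _ _)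
    have h1' : ((A i).card : ℝ) ≤ (B i).card + H.card := by exact_mod_cast h1
    have h2 := hcard i hi
    linarith
  have key := h.finset (u := u) (v := v) (A := B) (S := S) (κ := κ / 2) (R := R) (by positivity)
    hinj hv
    (fun i hi => (hBA i).trans (hA i hi)) (fun i hi => ?_) (fun i hi l hl q => ?_) (fun j => ?_)
  · have hSpos : (0 : ℝ) < S.card := by exact_mod_cast card_pos.2 ⟨i₀, hi₀⟩
    have h1 : (S.card : ℝ) * (κ / 2) ^ lam / C ≤ R ^ a := by
      rw [div_le_iff₀ hC]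
      have h2 : (κ / 2) ^ (-lam) * (κ / 2) ^ lam = 1 := by
        rw [← Real.rpow_add (by positivity), neg_add_cancel, Real.rpow_zero]
      calc (S.card : ℝ) * (κ / 2) ^ lam ≤ (C * (κ / 2) ^ (-lam) * R ^ a) * (κ / 2) ^ lam :=
            mul_le_mul_of_nonneg_right key (by positivity)
        _ = R ^ a * C * ((κ / 2) ^ (-lam) * (κ / 2) ^ lam) := by ring
        _ = R ^ a * C := by rw [h2, mul_one]
    have h3 : ((S.card : ℝ) * (κ / 2) ^ lam / C) ^ (1 / a) ≤ R := by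
      calc ((S.card : ℝ) * (κ / 2) ^ lam / C) ^ (1 / a) ≤ (R ^ a) ^ (1 / a) :=
            Real.rpow_le_rpow (by positivity) h1 (by positivity)
        _ = R := by rw [← Real.rpow_mul hRpos.le, mul_one_div_cancel ha.ne', Real.rpow_one]
    calc κ / 2 * 2 ^ m * ((S.card : ℝ) * (κ / 2) ^ lam / C) ^ (1 / a) ≤ κ / 2 * 2 ^ m * R :=
          mul_le_mul_of_nonneg_left h3 (by positivity)
      _ = Rt := by rw [hR]; field_simp
  · have h1 := hcard i hi
    have h2 := hBcard i hi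
    linarith
  · have h1 : (dy (B i) l q).card ≤ (dy (A i) l q).card :=
      card_le_card (filter_subset_filter _ (hBA i))
    have h1' : ((dy (B i) l q).card : ℝ) ≤ (dy (A i) l q).card := by exact_mod_cast h1
    calc ((dy (B i) l q).card : ℝ) ≤ (dy (A i) l q).card := h1'
      _ ≤ ((2 : ℝ) ^ l / 2 ^ m) ^ e₀ * (A i).card := hE i hi l hl q
      _ ≤ ((2 : ℝ) ^ l / 2 ^ m) ^ e₀ * (2 * (B i).card) :=
          mul_le_mul_of_nonneg_left (hBcard i hi) (by positivity)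
      _ = 2 * ((2 : ℝ) ^ l / 2 ^ m) ^ e₀ * (B i).card := by ring
  · by_cases hj : j ∈ Finset.Ico 0 (2 ^ m : ℤ)
    · by_cases hjH : j ∈ H
      · have : cells (2 ^ m) u v B S j = 0 := by
          unfold cells
          rw [card_eq_zero, image_eq_empty, filter_eq_empty_iff]
          intro i _ hi
          exact (mem_filter.1 hi).2 hjH
        rw [this, Nat.cast_zero]; exact hRpos.le
      · have h1 : ¬ R < cells (2 ^ m) u v A S j := fun hlt => hjH (mem_filter.2 ⟨hj, hlt⟩)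
        refine le_trans ?_ (not_lt.1 h1)
        exact_mod_cast cells_le_subset (2 ^ m) u v (Subset.refl S) hBA j
    · have : cells (2 ^ m) u v B S j = 0 := by
        unfold cells
        rw [card_eq_zero, image_eq_empty, filter_eq_empty_iff]
        intro i hi hji
        exact hj (hA i hi (hBA i hji))
      rw [this, Nat.cast_zero]; exact hRpos.le

/-! ### Rescaling a dyadic interval -/

/-- Representatives of the velocities modulo rounding. -/
lemma exists_rep (v : Fin N → Fin d → ℤ) (hv : Function.Injective v) (S : Finset (Fin N)) (k : ℕ) :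
    ∃ T ⊆ S, Set.InjOn (fun i => fun c => v i c / 2 ^ k) (T : Set (Fin N)) ∧
      S.card ≤ (2 ^ k) ^ d * T.card := by
  classical
  set f : Fin N → Fin d → ℤ := fun i => fun c => v i c / 2 ^ k with hf
  obtain ⟨T, hTS, hinj, himg⟩ := Finset.exists_subset_injOn_image_eq_of_surjOn (f := f)
    (S : Set (Fin N)) (S.image f) (by rw [coe_image]; exact Set.surjOn_image _ _)
  refine ⟨T, by exact_mod_cast hTS, hinj, ?_⟩
  have h1 : T.card = (S.image f).card := by rw [← himg, card_image_of_injOn hinj]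
  rw [h1]
  refine card_le_mul_card_image S _ fun b _ => ?_
  have h2 : ((S.filter fun i => f i = b).image v) ⊆
      Fintype.piFinset fun c => Finset.Ico (b c * 2 ^ k) (b c * 2 ^ k + 2 ^ k) := by
    intro w hw
    obtain ⟨i, hi, rfl⟩ := mem_image.1 hw
    rw [Fintype.mem_piFinset]
    intro c
    have h3 : v i c / 2 ^ k = b c := by
      have := (mem_filter.1 hi).2
      rw [← this]
    have hp : (0 : ℤ) < 2 ^ k := by positivity
    rw [mem_Ico, ← h3]
    have h4 := Int.mul_ediv_add_emod (v i c) (2 ^ k)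
    have h5 := Int.emod_nonneg (v i c) hp.ne'
    have h6 := Int.emod_lt_of_pos (v i c) hp
    constructor <;> nlinarith
  calc (S.filter fun i => f i = b).card = ((S.filter fun i => f i = b).image v).card :=
        (card_image_of_injective _ hv).symm
    _ ≤ _ := card_le_card h2
    _ = (2 ^ k) ^ d := by
        have h7 : ((2 : ℤ) ^ k).toNat = 2 ^ k := by
          rw [show ((2 : ℤ) ^ k) = ((2 ^ k : ℕ) : ℤ) by push_cast; rfl, Int.toNat_natCast]
        rw [Fintype.card_piFinset]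
        simp [h7]

lemma cells_rescale {m l : ℕ} (hl : l ≤ m) (q : ℤ) (u : Fin N → Fin d → ℝ)
    (v : Fin N → Fin d → ℤ) (A : Fin N → Finset ℤ) (T : Finset (Fin N)) (j : ℤ) (hj : 0 ≤ j)
    (hj' : j < 2 ^ l) :
    cells (2 ^ l) (fun i => pos (2 ^ m) (u i) (v i) (q * 2 ^ l))
      (fun i => fun c => v i c / 2 ^ (m - l)) (fun i => (dy (A i) l q).image fun y => y - q * 2 ^ l)
      T j ≤ 2 ^ d * cells (2 ^ m) u v A univ (j + q * 2 ^ l) := by
  classical
  set B : Finset (Fin d → ℤ) := (univ.filter fun i => j + q * 2 ^ l ∈ A i).image fun i =>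
    rd (pos (2 ^ m) (u i) (v i) (j + q * 2 ^ l)) with hB
  have hsub : ((T.filter fun i => j ∈ (dy (A i) l q).image fun y => y - q * 2 ^ l).image fun i =>
      rd (pos (2 ^ l) (pos (2 ^ m) (u i) (v i) (q * 2 ^ l)) (fun c => v i c / 2 ^ (m - l)) j)) ⊆
      (B ×ˢ Fintype.piFinset fun _ : Fin d => ({0, 1} : Finset ℤ)).image fun p => p.1 - p.2 := by
    intro w hw
    obtain ⟨i, hi, rfl⟩ := mem_image.1 hw
    obtain ⟨hiT, hi2⟩ := mem_filter.1 hi
    obtain ⟨y, hy, hyj⟩ := mem_image.1 hi2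
    have hyj' : j + q * 2 ^ l = y := by rw [← hyj]; ring
    have hyA : y ∈ A i := (mem_filter.1 hy).1
    rw [mem_image]
    set θ : Fin d → ℤ := fun c => rd (pos (2 ^ m) (u i) (v i) (j + q * 2 ^ l)) c -
      rd (pos (2 ^ l) (pos (2 ^ m) (u i) (v i) (q * 2 ^ l)) (fun c => v i c / 2 ^ (m - l)) j) c
      with hθ
    refine ⟨(rd (pos (2 ^ m) (u i) (v i) (j + q * 2 ^ l)), θ), ?_, ?_⟩
    · rw [mem_product]
      refine ⟨mem_image.2 ⟨i, mem_filter.2 ⟨mem_univ _, by rw [hyj']; exact hyA⟩, rfl⟩, ?_⟩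
      rw [Fintype.mem_piFinset]
      intro c
      have hpm : (0 : ℝ) < 2 ^ m := by positivity
      have hpl : (0 : ℝ) < 2 ^ l := by positivity
      have hpk : (0 : ℤ) < 2 ^ (m - l) := by positivity
      set V : ℤ := v i c / 2 ^ (m - l) with hV
      have h4 := Int.mul_ediv_add_emod (v i c) (2 ^ (m - l))
      have h5 := Int.emod_nonneg (v i c) hpk.ne'
      have h6 := Int.emod_lt_of_pos (v i c) hpk
      set r : ℤ := v i c % 2 ^ (m - l) with hr
      have hvr : (v i c : ℝ) = 2 ^ (m - l) * V + r := by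
        rw [← h4]; push_cast; ring
      have h5' : (0 : ℝ) ≤ r := by exact_mod_cast h5
      have h6' : (r : ℝ) < 2 ^ (m - l) := by exact_mod_cast h6
      have hml : (2 : ℝ) ^ m = 2 ^ l * 2 ^ (m - l) := by
        rw [← pow_add]; congr 1; omega
      have hpk' : (0 : ℝ) < 2 ^ (m - l) := by positivity
      have hjr : (0 : ℝ) ≤ j := by exact_mod_cast hj
      have hjr' : (j : ℝ) < 2 ^ l := by exact_mod_cast hj'
      have hdiff : pos (2 ^ m) (u i) (v i) (j + q * 2 ^ l) c =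
          pos (2 ^ l) (pos (2 ^ m) (u i) (v i) (q * 2 ^ l)) (fun c => v i c / 2 ^ (m - l)) j c +
          (j : ℝ) / 2 ^ l * (r / 2 ^ (m - l)) := by
        unfold pos
        simp only []
        rw [← hV]
        push_cast
        rw [hvr, hml]
        field_simp
        ring
      have hD0 : 0 ≤ (j : ℝ) / 2 ^ l * (r / 2 ^ (m - l)) := by positivity
      have hD1 : (j : ℝ) / 2 ^ l * (r / 2 ^ (m - l)) < 1 := by
        have a1 : (j : ℝ) / 2 ^ l < 1 := by rw [div_lt_one hpl]; exact hjr'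
        have a2 : (r : ℝ) / 2 ^ (m - l) < 1 := by rw [div_lt_one hpk']; exact h6'
        have a3 : (0 : ℝ) ≤ j / 2 ^ l := by positivity
        have a4 : (0 : ℝ) ≤ r / 2 ^ (m - l) := by positivity
        nlinarith
      have e1 : θ c = ⌊pos (2 ^ m) (u i) (v i) (j + q * 2 ^ l) c⌋ -
        ⌊pos (2 ^ l) (pos (2 ^ m) (u i) (v i) (q * 2 ^ l)) (fun c => v i c / 2 ^ (m - l)) j c⌋ :=
        rfl
      set P := pos (2 ^ m) (u i) (v i) (j + q * 2 ^ l) c
      set P' := pos (2 ^ l) (pos (2 ^ m) (u i) (v i) (q * 2 ^ l)) (fun c => v i c / 2 ^ (m - l)) j c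
      have b1 := Int.floor_le P
      have b2 := Int.lt_floor_add_one P
      have b3 := Int.floor_le P'
      have b4 := Int.lt_floor_add_one P'
      have c1 : ((⌊P⌋ - ⌊P'⌋ : ℤ) : ℝ) < 2 := by push_cast; linarith
      have c2 : (-1 : ℝ) < ((⌊P⌋ - ⌊P'⌋ : ℤ) : ℝ) := by push_cast; linarith
      have c1' : ⌊P⌋ - ⌊P'⌋ < 2 := by exact_mod_cast c1
      have c2' : -1 < ⌊P⌋ - ⌊P'⌋ := by exact_mod_cast c2
      change θ c ∈ ({0, 1} : Finset ℤ)
      rw [e1, mem_insert, mem_singleton]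
      omega
    · funext c
      simp only [Pi.sub_apply, hθ]
      ring
  unfold cells
  calc _ ≤ _ := card_le_card hsub
    _ ≤ _ := card_image_le
    _ = B.card * 2 ^ d := by
        rw [card_product, Fintype.card_piFinset]
        simp
    _ = 2 ^ d * B.card := mul_comm _ _

/-! ### Assembly -/

lemma sum_rpow_ge {κ : Type*} (T : Finset κ) (f : κ → ℝ) (hf : ∀ k ∈ T, 0 ≤ f k) {s : ℝ}
    (hs0 : 0 < s) (hs1 : s ≤ 1) : (∑ k ∈ T, f k) ^ s ≤ ∑ k ∈ T, f k ^ s := by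
  classical
  induction T using Finset.induction_on with
  | empty => simp [Real.zero_rpow hs0.ne']
  | insert k T hk ih =>
    rw [sum_insert hk, sum_insert hk]
    have h1 : 0 ≤ f k := hf k (mem_insert_self _ _)
    have h2 : ∀ i ∈ T, 0 ≤ f i := fun i hi => hf i (mem_insert_of_mem hi)
    refine (Real.rpow_add_le_add_rpow h1 (sum_nonneg h2) hs0.le hs1).trans ?_
    have := ih h2
    linarith

/-- The bound for one dyadic interval. -/
lemma one_interval {a lam e₀ C : ℝ} (ha : 1 ≤ a) (hlam : lam ≤ d) (hC : 0 < C)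
    (h : SC d a lam e₀ C) {m l : ℕ} (hl : l ≤ m) (q : ℤ)
    {u : Fin N → Fin d → ℝ} {v : Fin N → Fin d → ℤ} {A : Fin N → Finset ℤ} {S : Finset (Fin N)}
    {κ : ℝ} (hκ : 0 < κ) (hinj : Function.Injective v)
    (hv : ∀ i k, |v i k| ≤ 2 ^ m)
    (hA : ∀ i, A i ⊆ Finset.Ico 0 (2 ^ m : ℤ)) (hcard : ∀ i, κ * 2 ^ m ≤ (A i).card)
    (hmax : ∀ i ∈ S, ∀ l' ≤ m, ∀ q' : ℤ, ((dy (A i) l' q').card : ℝ) / ((2 : ℝ) ^ l') ^ e₀ ≤
      ((dy (A i) l q).card : ℝ) / ((2 : ℝ) ^ l) ^ e₀) :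
    (1 / 2 ^ d) * (1 / 2) * (2 ^ (-lam) / C) ^ (1 / a) * (2 ^ m * (κ * ((2 : ℝ) ^ l / 2 ^ m) ^ e₀) ^
      (1 + d / a) * (S.card : ℝ) ^ (1 / a)) ≤
      ∑ j ∈ (Finset.Ico 0 (2 ^ m : ℤ)).filter (fun j => j / 2 ^ l = q),
        (cells (2 ^ m) u v A univ j : ℝ) := by
  classical
  have ha0 : 0 < a := by linarith
  have hpm : (0 : ℝ) < 2 ^ m := by positivity
  have hpl : (0 : ℝ) < 2 ^ l := by positivity
  rcases S.eq_empty_or_nonempty with hS | ⟨i₀, hi₀⟩
  · subst hS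
    rw [card_empty, Nat.cast_zero, Real.zero_rpow (one_div_ne_zero ha0.ne'), mul_zero, mul_zero]
    exact sum_nonneg fun _ _ => Nat.cast_nonneg _
  -- the density in the interval
  set w : ℝ := (2 : ℝ) ^ l / 2 ^ m with hw
  have hwpos : 0 < w := by positivity
  have hBcard : ∀ i ∈ S, κ * w ^ e₀ * 2 ^ m ≤ ((dy (A i) l q).card : ℝ) := by
    intro i hi
    have h1 := hmax i hi m le_rfl 0
    have h2 : dy (A i) m 0 = A i := by
      refine filter_true_of_mem fun y hy => ?_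
      have := mem_Ico.1 (hA i hy)
      exact Int.ediv_eq_zero_of_lt this.1 this.2
    rw [h2, div_le_div_iff₀ (by positivity) (by positivity)] at h1
    have h3 := hcard i
    have h4 : w ^ e₀ = ((2 : ℝ) ^ l) ^ e₀ / ((2 : ℝ) ^ m) ^ e₀ := by
      rw [hw, Real.div_rpow hpl.le hpm.le]
    have h5 : (0 : ℝ) < ((2 : ℝ) ^ m) ^ e₀ := by positivity
    have h6 : (0 : ℝ) < ((2 : ℝ) ^ l) ^ e₀ := by positivity
    rw [h4]
    have h7 : κ * (((2 : ℝ) ^ l) ^ e₀ / ((2 : ℝ) ^ m) ^ e₀) * 2 ^ m =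
      (κ * 2 ^ m * ((2 : ℝ) ^ l) ^ e₀) / ((2 : ℝ) ^ m) ^ e₀ := by ring
    rw [h7, div_le_iff₀ h5]
    exact (mul_le_mul_of_nonneg_right h3 h6.le).trans h1
  have hne : (dy (A i₀) l q).Nonempty := by
    rw [← card_pos]
    have := hBcard i₀ hi₀
    have h2 : 0 < κ * w ^ e₀ * 2 ^ m := by positivity
    exact_mod_cast lt_of_lt_of_le h2 this
  obtain ⟨y₀, hy₀⟩ := hne
  have hy₀A := mem_Ico.1 (hA i₀ (mem_filter.1 hy₀).1)
  have hy₀q : y₀ / 2 ^ l = q := (mem_filter.1 hy₀).2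
  have hplz : (0 : ℤ) < 2 ^ l := by positivity
  have hq0 : 0 ≤ q := by rw [← hy₀q]; exact Int.ediv_nonneg hy₀A.1 hplz.le
  have hq1 : q * 2 ^ l + 2 ^ l ≤ 2 ^ m := by
    have h1 : (2 : ℤ) ^ m = 2 ^ (m - l) * 2 ^ l := by rw [← pow_add]; congr 1; omega
    have h2 : q < 2 ^ (m - l) := by
      rw [← hy₀q]
      apply Int.ediv_lt_of_lt_mul hplz
      rw [← h1]; exact hy₀A.2
    rw [h1]
    nlinarith
  obtain ⟨T, hTS, hTinj, hTcard⟩ := exists_rep v hinj S (m - l)
  set u' : Fin N → Fin d → ℝ := fun i => pos (2 ^ m) (u i) (v i) (q * 2 ^ l) with hu'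
  set v' : Fin N → Fin d → ℤ := fun i => fun c => v i c / 2 ^ (m - l) with hv'
  set A' : Fin N → Finset ℤ := fun i => (dy (A i) l q).image fun y => y - q * 2 ^ l with hA'
  set κJ : ℝ := κ * w ^ e₀ * (2 ^ m / 2 ^ l) with hκJ
  have hκJpos : 0 < κJ := by positivity
  have hA'card : ∀ i, (A' i).card = (dy (A i) l q).card := fun i =>
    card_image_of_injective _ fun x y hxy => by simpa using hxy
  have hA'sub : ∀ i, A' i ⊆ Finset.Ico 0 (2 ^ l : ℤ) := by
    intro i j hj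
    obtain ⟨y, hy, rfl⟩ := mem_image.1 hj
    have h1 : y / 2 ^ l = q := (mem_filter.1 hy).2
    have h4 := Int.mul_ediv_add_emod y (2 ^ l)
    have h5 := Int.emod_nonneg y hplz.ne'
    have h6 := Int.emod_lt_of_pos y hplz
    rw [h1] at h4
    rw [mem_Ico]
    constructor <;> nlinarith
  have hκJ2 : ∀ i ∈ S, κJ * 2 ^ l ≤ (A' i).card := by
    intro i hi
    rw [hA'card i]
    refine le_trans (le_of_eq ?_) (hBcard i hi)
    rw [hκJ]; field_simp
  have hκJ1 : κJ ≤ 1 := by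
    have h1 := hκJ2 i₀ hi₀
    have h2 : ((A' i₀).card : ℝ) ≤ 2 ^ l := by
      have := card_le_card (hA'sub i₀)
      rw [Int.card_Ico, sub_zero] at this
      have h7 : ((2 : ℤ) ^ l).toNat = 2 ^ l := by
        rw [show ((2 : ℤ) ^ l) = ((2 ^ l : ℕ) : ℤ) by push_cast; rfl, Int.toNat_natCast]
      rw [h7] at this
      exact_mod_cast this
    by_contra hcon
    push Not at hcon
    have := mul_lt_mul_of_pos_right hcon hpl
    linarith
  have key := prune (N := N) (u := u') (v := v') (A := A') (S := T) (κ := κJ) ha0 hC h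
    (m := l) hκJpos hTinj ?_ (fun i _ => hA'sub i) (fun i hi => hκJ2 i (hTS hi)) ?_
  · -- conclusion
    have hsum : ∑ j ∈ Finset.Ico 0 (2 ^ l : ℤ), (cells (2 ^ l) u' v' A' T j : ℝ) ≤
        2 ^ d * ∑ j ∈ (Finset.Ico 0 (2 ^ m : ℤ)).filter (fun j => j / 2 ^ l = q),
          (cells (2 ^ m) u v A univ j : ℝ) := by
      calc ∑ j ∈ Finset.Ico 0 (2 ^ l : ℤ), (cells (2 ^ l) u' v' A' T j : ℝ) ≤
          ∑ j ∈ Finset.Ico 0 (2 ^ l : ℤ),
            2 ^ d * (cells (2 ^ m) u v A univ (j + q * 2 ^ l) : ℝ) := by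
            refine sum_le_sum fun j hj => ?_
            have hj' := mem_Ico.1 hj
            have := cells_rescale hl q u v A T j hj'.1 hj'.2
            exact_mod_cast this
        _ = 2 ^ d * ∑ j ∈ (Finset.Ico 0 (2 ^ l : ℤ)).image (fun j => j + q * 2 ^ l),
            (cells (2 ^ m) u v A univ j : ℝ) := by
            rw [← mul_sum, sum_image fun x _ y _ hxy => by simpa using hxy]
        _ ≤ _ := by
            refine mul_le_mul_of_nonneg_left (sum_le_sum_of_subset_of_nonneg ?_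
              fun _ _ _ => Nat.cast_nonneg _) (by positivity)
            intro j hj
            obtain ⟨j', hj', rfl⟩ := mem_image.1 hj
            have hj'' := mem_Ico.1 hj'
            rw [mem_filter, mem_Ico]
            refine ⟨⟨?_, ?_⟩, ?_⟩
            · have : 0 ≤ q * 2 ^ l := by positivity
              linarith [hj''.1]
            · linarith [hj''.2]
            · rw [Int.add_mul_ediv_right _ _ hplz.ne', Int.ediv_eq_zero_of_lt hj''.1 hj''.2,
                zero_add]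
    have hb0 : (0 : ℝ) < 2 ^ (-lam) / C := by positivity
    -- comparison of the main terms
    have hTc : (S.card : ℝ) * w ^ d ≤ T.card := by
      have h1 : (S.card : ℝ) ≤ (2 ^ (m - l)) ^ d * T.card := by exact_mod_cast hTcard
      have h2 : w * 2 ^ (m - l) = 1 := by
        rw [hw]
        have : (2 : ℝ) ^ m = 2 ^ l * 2 ^ (m - l) := by rw [← pow_add]; congr 1; omega
        rw [this]; field_simp
      calc (S.card : ℝ) * w ^ d ≤ ((2 ^ (m - l)) ^ d * T.card) * w ^ d :=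
            mul_le_mul_of_nonneg_right h1 (by positivity)
        _ = (w * 2 ^ (m - l)) ^ d * T.card := by ring
        _ = T.card := by rw [h2, one_pow, one_mul]
    have hmain : (2 ^ (-lam) / C) ^ (1 / a) * ((κ * w ^ e₀) ^ ((d : ℝ) / a) *
        (S.card : ℝ) ^ (1 / a)) ≤ ((T.card : ℝ) * (κJ / 2) ^ lam / C) ^ (1 / a) := by
      have hκw : κ * w ^ e₀ = κJ * w := by
        rw [hκJ, hw]; field_simp
      have e1 : (κ * w ^ e₀) ^ ((d : ℝ) / a) = ((κJ * w) ^ d) ^ (1 / a) := by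
        have n0 : 0 ≤ κJ * w := by positivity
        rw [hκw, ← Real.rpow_natCast (κJ * w) d, ← Real.rpow_mul n0]
        congr 1; ring
      have n1 : 0 ≤ (κJ * w) ^ d := by positivity
      have n2 : (0 : ℝ) ≤ S.card := Nat.cast_nonneg _
      have n3 : 0 ≤ (κJ * w) ^ d * (S.card : ℝ) := mul_nonneg n1 n2
      have n4 : 0 ≤ 1 / a := by positivity
      rw [e1, ← Real.mul_rpow n1 n2, ← Real.mul_rpow hb0.le n3]
      refine Real.rpow_le_rpow (mul_nonneg hb0.le n3) ?_ n4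
      have h3 : κJ ^ d ≤ κJ ^ lam := by
        rw [← Real.rpow_natCast κJ d]
        exact Real.rpow_le_rpow_of_exponent_ge hκJpos hκJ1 hlam
      have h4 : (κJ / 2) ^ lam = κJ ^ lam * 2 ^ (-lam) := by
        rw [Real.div_rpow hκJpos.le (by norm_num), Real.rpow_neg (by norm_num), div_eq_mul_inv]
      rw [h4]
      have h5 : (0 : ℝ) < 2 ^ (-lam) := by positivity
      calc 2 ^ (-lam) / C * ((κJ * w) ^ d * (S.card : ℝ)) =
          ((S.card : ℝ) * w ^ d) * (κJ ^ d * 2 ^ (-lam)) / C := by ring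
        _ ≤ (T.card : ℝ) * (κJ ^ lam * 2 ^ (-lam)) / C := by
            refine div_le_div_of_nonneg_right ?_ hC.le
            exact mul_le_mul hTc (mul_le_mul_of_nonneg_right h3 h5.le) (by positivity)
              (Nat.cast_nonneg _)
    have e2 : (κ * w ^ e₀) ^ (1 + (d : ℝ) / a) = (κ * w ^ e₀) * (κ * w ^ e₀) ^ ((d : ℝ) / a) := by
      rw [Real.rpow_add (by positivity), Real.rpow_one]
    have e3 : κJ / 2 * 2 ^ l = (1 / 2) * (2 ^ m * (κ * w ^ e₀)) := by
      rw [hκJ]; field_simp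
    have h8 : (1 / 2) * (2 ^ m * (κ * w ^ e₀)) * ((2 ^ (-lam) / C) ^ (1 / a) *
        ((κ * w ^ e₀) ^ ((d : ℝ) / a) * (S.card : ℝ) ^ (1 / a))) ≤
        2 ^ d * ∑ j ∈ (Finset.Ico 0 (2 ^ m : ℤ)).filter (fun j => j / 2 ^ l = q),
          (cells (2 ^ m) u v A univ j : ℝ) := by
      refine le_trans ?_ (key.trans hsum)
      rw [e3]
      exact mul_le_mul_of_nonneg_left hmain (by positivity)
    rw [e2]
    have h9 : (0 : ℝ) < 2 ^ d := by positivity
    calc 1 / 2 ^ d * (1 / 2) * (2 ^ (-lam) / C) ^ (1 / a) *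
        (2 ^ m * ((κ * w ^ e₀) * (κ * w ^ e₀) ^ ((d : ℝ) / a)) * (S.card : ℝ) ^ (1 / a)) =
        (1 / 2 ^ d) * ((1 / 2) * (2 ^ m * (κ * w ^ e₀)) * ((2 ^ (-lam) / C) ^ (1 / a) *
        ((κ * w ^ e₀) ^ ((d : ℝ) / a) * (S.card : ℝ) ^ (1 / a)))) := by ring
      _ ≤ (1 / 2 ^ d) * (2 ^ d * ∑ j ∈ (Finset.Ico 0 (2 ^ m : ℤ)).filter (fun j => j / 2 ^ l = q),
          (cells (2 ^ m) u v A univ j : ℝ)) := mul_le_mul_of_nonneg_left h8 (by positivity)
      _ = _ := by field_simp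
  · intro i _ c
    have h1 := hv i c
    have hpk : (0 : ℤ) < 2 ^ (m - l) := by positivity
    have hml : (2 : ℤ) ^ m = 2 ^ l * 2 ^ (m - l) := by rw [← pow_add]; congr 1; omega
    rw [abs_le] at h1 ⊢
    simp only [hv']
    constructor
    · rw [Int.le_ediv_iff_mul_le hpk]
      nlinarith [h1.1]
    · apply Int.ediv_le_of_le_mul hpk
      rw [← hml]; exact h1.2
  · intro i hi l' hl' q'
    have h1 := hmax i (hTS hi) l' (hl'.trans hl) (q' + q * 2 ^ (l - l'))
    have hpl' : (0 : ℤ) < 2 ^ l' := by positivity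
    have hll : (2 : ℤ) ^ l = 2 ^ (l - l') * 2 ^ l' := by rw [← pow_add]; congr 1; omega
    have h2 : (dy (A' i) l' q').card ≤ (dy (A i) l' (q' + q * 2 ^ (l - l'))).card := by
      refine card_le_card_of_injOn (fun j => j + q * 2 ^ l) ?_ (fun x _ y _ hxy => by simpa using hxy)
      intro j hj
      have hj := mem_filter.1 (mem_coe.1 hj)
      obtain ⟨y, hy, hyj⟩ := mem_image.1 hj.1
      have hyj' : j + q * 2 ^ l = y := by rw [← hyj]; ring
      rw [mem_coe]
      refine mem_filter.2 ⟨?_, ?_⟩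
      · change j + q * 2 ^ l ∈ A i
        rw [hyj']; exact (mem_filter.1 hy).1
      · change (j + q * 2 ^ l) / 2 ^ l' = _
        rw [hll, ← mul_assoc, Int.add_mul_ediv_right _ _ hpl'.ne', hj.2]
    have h2' : ((dy (A' i) l' q').card : ℝ) ≤ (dy (A i) l' (q' + q * 2 ^ (l - l'))).card := by
      exact_mod_cast h2
    rw [hA'card i]
    have h5 : (0 : ℝ) < ((2 : ℝ) ^ l') ^ e₀ := by positivity
    have h6 : (0 : ℝ) < ((2 : ℝ) ^ l) ^ e₀ := by positivity
    rw [div_le_div_iff₀ h5 h6] at h1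
    rw [Real.div_rpow (by positivity) (by positivity), div_mul_eq_mul_div, le_div_iff₀ h6]
    calc ((dy (A' i) l' q').card : ℝ) * ((2 : ℝ) ^ l) ^ e₀ ≤
        (dy (A i) l' (q' + q * 2 ^ (l - l'))).card * ((2 : ℝ) ^ l) ^ e₀ :=
          mul_le_mul_of_nonneg_right h2' h6.le
      _ ≤ _ := h1
      _ = _ := mul_comm _ _

lemma succ_le_pow (m : ℕ) {η : ℝ} (hη : 0 < η) :
    (m : ℝ) + 1 ≤ (1 + 1 / (η * Real.log 2)) * ((2 : ℝ) ^ m) ^ η := by
  have hl : 0 < Real.log 2 := Real.log_pos (by norm_num)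
  have h1 : ((2 : ℝ) ^ m) ^ η = Real.exp (m * (η * Real.log 2)) := by
    rw [← Real.rpow_natCast, ← Real.rpow_mul (by norm_num), Real.rpow_def_of_pos (by norm_num)]
    congr 1; ring
  have h2 := Real.add_one_le_exp ((m : ℝ) * (η * Real.log 2))
  have h3 : 0 < η * Real.log 2 := by positivity
  rw [h1]
  calc (m : ℝ) + 1 ≤ (1 + 1 / (η * Real.log 2)) * ((m : ℝ) * (η * Real.log 2) + 1) := by
        have : (1 + 1 / (η * Real.log 2)) * ((m : ℝ) * (η * Real.log 2) + 1) =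
          (m : ℝ) + 1 + ((m : ℝ) * (η * Real.log 2) + 1 / (η * Real.log 2)) := by
          field_simp; ring
        rw [this]
        have : 0 ≤ (m : ℝ) * (η * Real.log 2) + 1 / (η * Real.log 2) := by positivity
        linarith
    _ ≤ _ := mul_le_mul_of_nonneg_left h2 (by positivity)

/-- The two-ends reduction. -/
theorem denseCount_of_strong {d : ℕ} {a lam : ℝ} (ha : 1 ≤ a) (hlam : lam ≤ d)
    (h : StrongCount d a lam) : DenseCount d a := by
  classical
  intro ε hε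
  have ha0 : 0 < a := by linarith
  set b : ℝ := 1 + d / a with hb
  have hb1 : 1 ≤ b := by
    have : 0 ≤ (d : ℝ) / a := by positivity
    linarith
  have hb0 : 0 < b := by linarith
  set e₀ : ℝ := ε / (2 * b) with he₀
  have he₀pos : 0 < e₀ := by positivity
  obtain ⟨C, hC, hSC⟩ := h e₀ he₀pos
  set c₁ : ℝ := (1 / 2 ^ d) * (1 / 2) * (2 ^ (-lam) / C) ^ (1 / a) with hc₁
  have hc₁pos : 0 < c₁ := by positivity
  have hl2 : 0 < Real.log 2 := Real.log_pos (by norm_num)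
  set K : ℝ := 1 + 1 / (ε / 2 * Real.log 2) with hK
  have hKpos : 0 < K := by positivity
  refine ⟨c₁ / K, by positivity, ?_⟩
  intro m N u v A κ hκ hinj hv hA hcard
  have hpm : (0 : ℝ) < 2 ^ m := by positivity
  have hpmz : (0 : ℤ) < 2 ^ m := by positivity
  change _ ≤ ∑ j ∈ Finset.Ico 0 (2 ^ m : ℤ), (cells (2 ^ m) u v A univ j : ℝ)
  -- choice of the intervals
  set P : Finset (ℕ × ℤ) := (range (m + 1)) ×ˢ (Finset.Ico 0 (2 ^ m : ℤ)) with hP
  have hPne : P.Nonempty := ⟨(0, 0), by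
    rw [hP, mem_product]; exact ⟨by simp, mem_Ico.2 ⟨le_rfl, hpmz⟩⟩⟩
  have hch : ∀ i, ∃ p ∈ P, ∀ l' ≤ m, ∀ q' : ℤ,
      ((dy (A i) l' q').card : ℝ) / ((2 : ℝ) ^ l') ^ e₀ ≤
      ((dy (A i) p.1 p.2).card : ℝ) / ((2 : ℝ) ^ p.1) ^ e₀ := by
    intro i
    obtain ⟨p, hp, hmax⟩ := exists_max_image P
      (fun p => ((dy (A i) p.1 p.2).card : ℝ) / ((2 : ℝ) ^ p.1) ^ e₀) hPne
    refine ⟨p, hp, fun l' hl' q' => ?_⟩
    by_cases hq : q' ∈ Finset.Ico 0 (2 ^ m : ℤ)
    · exact hmax (l', q') (by rw [hP, mem_product]; exact ⟨by simp; omega, hq⟩)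
    · have : dy (A i) l' q' = ∅ := by
        rw [dy, filter_eq_empty_iff]
        intro y hy hyq
        apply hq
        have h1 := mem_Ico.1 (hA i hy)
        have hpl : (0 : ℤ) < 2 ^ l' := by positivity
        rw [mem_Ico, ← hyq]
        exact ⟨Int.ediv_nonneg h1.1 hpl.le, lt_of_le_of_lt (Int.ediv_le_self _ h1.1) h1.2⟩
      rw [this, card_empty, Nat.cast_zero, zero_div]
      positivity
  choose p hpP hpmax using hch
  -- one level
  have hlev : ∃ l ∈ range (m + 1), N ≤ (m + 1) * (univ.filter fun i => (p i).1 = l).card := by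
    by_contra hcon
    push Not at hcon
    have h1 : N = ∑ l ∈ range (m + 1), (univ.filter fun i => (p i).1 = l).card := by
      rw [← card_eq_sum_card_fiberwise (f := fun i => (p i).1) (s := (univ : Finset (Fin N)))
        (t := range (m + 1)) fun i _ => (mem_product.1 (hpP i)).1]
      simp
    have h2 : ∑ l ∈ range (m + 1), (m + 1) * (univ.filter fun i => (p i).1 = l).card <
        ∑ l ∈ range (m + 1), N := sum_lt_sum_of_nonempty ⟨0, by simp⟩ hcon
    rw [← mul_sum, ← h1, sum_const, card_range, smul_eq_mul] at h2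
    exact lt_irrefl _ h2
  obtain ⟨l, hl, hNl⟩ := hlev
  have hlm : l ≤ m := by simpa [Nat.lt_succ_iff] using hl
  set S : Finset (Fin N) := univ.filter fun i => (p i).1 = l with hS
  set Sq : ℤ → Finset (Fin N) := fun q => S.filter fun i => (p i).2 = q with hSq
  have hone : ∀ q : ℤ, c₁ * (2 ^ m * (κ * ((2 : ℝ) ^ l / 2 ^ m) ^ e₀) ^ b *
      ((Sq q).card : ℝ) ^ (1 / a)) ≤
      ∑ j ∈ (Finset.Ico 0 (2 ^ m : ℤ)).filter (fun j => j / 2 ^ l = q),
        (cells (2 ^ m) u v A univ j : ℝ) := by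
    intro q
    refine one_interval ha hlam hC hSC hlm q hκ hinj hv hA hcard ?_
    intro i hi
    have h1 := mem_filter.1 hi
    have h2 : (p i).1 = l := (mem_filter.1 h1.1).2
    intro l' hl' q'
    have := hpmax i l' hl' q'
    rw [h2, h1.2] at this
    exact this
  have hsum1 : ∑ q ∈ Finset.Ico 0 (2 ^ m : ℤ),
      ∑ j ∈ (Finset.Ico 0 (2 ^ m : ℤ)).filter (fun j => j / 2 ^ l = q),
        (cells (2 ^ m) u v A univ j : ℝ) =
      ∑ j ∈ Finset.Ico 0 (2 ^ m : ℤ), (cells (2 ^ m) u v A univ j : ℝ) := by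
    refine sum_fiberwise_of_maps_to (fun j hj => ?_) _
    have h1 := mem_Ico.1 hj
    have hpl : (0 : ℤ) < 2 ^ l := by positivity
    exact mem_Ico.2 ⟨Int.ediv_nonneg h1.1 hpl.le, lt_of_le_of_lt (Int.ediv_le_self _ h1.1) h1.2⟩
  have hcardS : (S.card : ℝ) = ∑ q ∈ Finset.Ico 0 (2 ^ m : ℤ), ((Sq q).card : ℝ) := by
    have := card_eq_sum_card_fiberwise (f := fun i => (p i).2) (s := S)
      (t := Finset.Ico 0 (2 ^ m : ℤ)) fun i _ => (mem_product.1 (hpP i)).2
    rw [this]; push_cast; rfl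
  have hs1 : 1 / a ≤ 1 := by rw [div_le_one ha0]; exact ha
  have hs0 : 0 < 1 / a := by positivity
  set X : ℝ := κ * ((2 : ℝ) ^ l / 2 ^ m) ^ e₀ with hX
  have hXpos : 0 < X := by positivity
  have h1 : c₁ * (2 ^ m * X ^ b * (S.card : ℝ) ^ (1 / a)) ≤
      ∑ j ∈ Finset.Ico 0 (2 ^ m : ℤ), (cells (2 ^ m) u v A univ j : ℝ) := by
    rw [← hsum1]
    calc c₁ * (2 ^ m * X ^ b * (S.card : ℝ) ^ (1 / a)) ≤
        c₁ * (2 ^ m * X ^ b * ∑ q ∈ Finset.Ico 0 (2 ^ m : ℤ), ((Sq q).card : ℝ) ^ (1 / a)) := by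
          refine mul_le_mul_of_nonneg_left (mul_le_mul_of_nonneg_left ?_ (by positivity))
            hc₁pos.le
          rw [hcardS]
          exact sum_rpow_ge _ _ (fun _ _ => Nat.cast_nonneg _) hs0 hs1
      _ = ∑ q ∈ Finset.Ico 0 (2 ^ m : ℤ), c₁ * (2 ^ m * X ^ b * ((Sq q).card : ℝ) ^ (1 / a)) := by
          rw [mul_sum, mul_sum]
      _ ≤ _ := sum_le_sum fun q _ => hone q
  refine le_trans ?_ h1
  -- the loss
  have hN : (N : ℝ) ≤ (m + 1) * S.card := by exact_mod_cast hNl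
  have hNa : (N : ℝ) ^ (1 / a) ≤ (m + 1) * (S.card : ℝ) ^ (1 / a) := by
    calc (N : ℝ) ^ (1 / a) ≤ ((m + 1) * S.card) ^ (1 / a) :=
          Real.rpow_le_rpow (Nat.cast_nonneg _) hN hs0.le
      _ = ((m : ℝ) + 1) ^ (1 / a) * (S.card : ℝ) ^ (1 / a) :=
          Real.mul_rpow (by positivity) (Nat.cast_nonneg _)
      _ ≤ ((m : ℝ) + 1) * (S.card : ℝ) ^ (1 / a) := by
          refine mul_le_mul_of_nonneg_right ?_ (by positivity)
          calc ((m : ℝ) + 1) ^ (1 / a) ≤ ((m : ℝ) + 1) ^ (1 : ℝ) :=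
                Real.rpow_le_rpow_of_exponent_le (by linarith [Nat.cast_nonneg (α := ℝ) m]) hs1
            _ = _ := Real.rpow_one _
  have hm1 : (m : ℝ) + 1 ≤ K * ((2 : ℝ) ^ m) ^ (ε / 2) := succ_le_pow m (by positivity)
  have hXb : κ ^ b * ((2 : ℝ) ^ m) ^ (-(ε / 2)) ≤ X ^ b := by
    rw [hX, Real.mul_rpow hκ.le (by positivity)]
    refine mul_le_mul_of_nonneg_left ?_ (by positivity)
    rw [← Real.rpow_mul (by positivity)]
    have e1 : e₀ * b = ε / 2 := by rw [he₀]; field_simp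
    rw [e1, Real.rpow_neg hpm.le, ← Real.inv_rpow hpm.le]
    refine Real.rpow_le_rpow (by positivity) ?_ (by positivity)
    rw [inv_eq_one_div]
    exact div_le_div_of_nonneg_right (one_le_pow₀ (by norm_num)) hpm.le
  have e3 : ((2 : ℝ) ^ m) ^ (-ε) * ((2 : ℝ) ^ m) ^ (ε / 2) = ((2 : ℝ) ^ m) ^ (-(ε / 2)) := by
    rw [← Real.rpow_add hpm]; congr 1; ring
  have hp1 : (0 : ℝ) < ((2 : ℝ) ^ m) ^ (-ε) := by positivity
  have hp2 : (0 : ℝ) ≤ κ ^ b := by positivity
  have hp3 : (0 : ℝ) ≤ (S.card : ℝ) ^ (1 / a) := by positivity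
  calc c₁ / K * ((2 : ℝ) ^ m) ^ (-ε) * (2 ^ m * κ ^ b * (N : ℝ) ^ (1 / a)) ≤
      c₁ / K * ((2 : ℝ) ^ m) ^ (-ε) * (2 ^ m * κ ^ b *
        ((K * ((2 : ℝ) ^ m) ^ (ε / 2)) * (S.card : ℝ) ^ (1 / a))) := by
        refine mul_le_mul_of_nonneg_left (mul_le_mul_of_nonneg_left ?_ (by positivity))
          (by positivity)
        exact hNa.trans (mul_le_mul_of_nonneg_right hm1 hp3)
    _ = c₁ * (2 ^ m * (κ ^ b * (((2 : ℝ) ^ m) ^ (-ε) * ((2 : ℝ) ^ m) ^ (ε / 2))) *
        (S.card : ℝ) ^ (1 / a)) := by field_simp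
    _ = c₁ * (2 ^ m * (κ ^ b * ((2 : ℝ) ^ m) ^ (-(ε / 2))) * (S.card : ℝ) ^ (1 / a)) := by
        rw [e3]
    _ ≤ c₁ * (2 ^ m * X ^ b * (S.card : ℝ) ^ (1 / a)) :=
        mul_le_mul_of_nonneg_left (mul_le_mul_of_nonneg_right
          (mul_le_mul_of_nonneg_left hXb hpm.le) hp3) hc₁pos.le

/-! ### Two ends imply bounded logarithmic energy -/

lemma ell_le (m : ℕ) (x y : ℤ) (h : |x - y| ≤ 2 ^ m) :
    ell (2 ^ m) x y ≤ Real.log 2 *
      (1 + (((Finset.Icc 1 m).filter fun j => |x - y| ≤ 2 ^ (m - j)).card : ℝ)) := by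
  set D : ℕ := (x - y).natAbs with hD
  have hDz : |x - y| = (D : ℤ) := by rw [hD]; exact (Int.natCast_natAbs _).symm
  set c : ℕ := Nat.clog 2 D with hc
  have hDc : D ≤ 2 ^ c := Nat.le_pow_clog (by norm_num) D
  have hcm : c ≤ m := by
    apply Nat.clog_le_of_le_pow
    rw [hDz] at h
    exact_mod_cast h
  have hcard : m - c ≤ ((Finset.Icc 1 m).filter fun j => |x - y| ≤ 2 ^ (m - j)).card := by
    have h1 : Finset.Icc 1 (m - c) ⊆ (Finset.Icc 1 m).filter fun j => |x - y| ≤ 2 ^ (m - j) := by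
      intro j hj
      have hj := mem_Icc.1 hj
      rw [mem_filter, mem_Icc]
      refine ⟨⟨hj.1, by omega⟩, ?_⟩
      rw [hDz]
      have h2 : D ≤ 2 ^ (m - j) := hDc.trans (Nat.pow_le_pow_right (by norm_num) (by omega))
      exact_mod_cast h2
    have := card_le_card h1
    rwa [Nat.card_Icc, Nat.add_sub_cancel] at this
  have hl2 : 0 < Real.log 2 := Real.log_pos (by norm_num)
  have hcard' : (m : ℝ) - c ≤ (((Finset.Icc 1 m).filter fun j => |x - y| ≤ 2 ^ (m - j)).card : ℝ) := by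
    have : ((m - c : ℕ) : ℝ) ≤ (((Finset.Icc 1 m).filter fun j => |x - y| ≤ 2 ^ (m - j)).card : ℝ) := by
      exact_mod_cast hcard
    rwa [Nat.cast_sub hcm] at this
  have habs : |(x : ℝ) - y| = D := by
    have : ((|x - y| : ℤ) : ℝ) = ((D : ℤ) : ℝ) := by rw [hDz]
    push_cast at this
    exact this
  have hmax : (2 : ℝ) ^ c ≤ 2 * max |(x : ℝ) - y| 1 := by
    rcases Nat.eq_zero_or_pos c with h0 | h0
    · rw [h0, pow_zero]
      have := le_max_right |(x : ℝ) - y| 1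
      linarith
    · have h1 : 2 ^ (c - 1) < D := Nat.pow_lt_of_lt_clog (by omega)
      have h2 : (2 : ℝ) ^ (c - 1) < D := by exact_mod_cast h1
      have h3 : (2 : ℝ) ^ c = 2 * 2 ^ (c - 1) := by
        rw [← pow_succ']; congr 1; omega
      have h4 := le_max_left |(x : ℝ) - y| 1
      rw [habs] at h4 ⊢
      rw [h3]; linarith
  have hmpos : (0 : ℝ) < max |(x : ℝ) - y| 1 := lt_of_lt_of_le one_pos (le_max_right _ _)
  unfold ell
  have h5 : ((2 ^ m : ℕ) : ℝ) / max |(x : ℝ) - y| 1 ≤ 2 ^ (m - c + 1) := by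
    rw [div_le_iff₀ hmpos]
    push_cast
    have h6 : (2 : ℝ) ^ m = 2 ^ (m - c) * 2 ^ c := by rw [← pow_add]; congr 1; omega
    rw [h6, pow_succ]
    have h7 : (0 : ℝ) < 2 ^ (m - c) := by positivity
    nlinarith
  calc Real.log (((2 ^ m : ℕ) : ℝ) / max |(x : ℝ) - y| 1) ≤ Real.log (2 ^ (m - c + 1)) :=
        Real.log_le_log (by positivity) h5
    _ = ((m - c + 1 : ℕ) : ℝ) * Real.log 2 := by rw [Real.log_pow]
    _ = Real.log 2 * (1 + ((m : ℝ) - c)) := by
        push_cast [Nat.cast_sub hcm]; ring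
    _ ≤ _ := by
        refine mul_le_mul_of_nonneg_left ?_ hl2.le
        linarith

lemma near_card (A : Finset ℤ) (r : ℕ) (x : ℤ) {B : ℝ}
    (hB : ∀ q : ℤ, ((dy A r q).card : ℝ) ≤ B) :
    ((A.filter fun y => |x - y| ≤ 2 ^ r).card : ℝ) ≤ 3 * B := by
  classical
  set q : ℤ := x / 2 ^ r with hq
  have hp : (0 : ℤ) < 2 ^ r := by positivity
  have hsub : (A.filter fun y => |x - y| ≤ 2 ^ r) ⊆ (dy A r (q - 1) ∪ dy A r q) ∪ dy A r (q + 1) := by
    intro y hy
    obtain ⟨hyA, hy2⟩ := mem_filter.1 hy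
    have h4 := Int.mul_ediv_add_emod x (2 ^ r)
    have h5 := Int.emod_nonneg x hp.ne'
    have h6 := Int.emod_lt_of_pos x hp
    have g4 := Int.mul_ediv_add_emod y (2 ^ r)
    have g5 := Int.emod_nonneg y hp.ne'
    have g6 := Int.emod_lt_of_pos y hp
    rw [abs_le] at hy2
    rw [← hq] at h4
    set q' : ℤ := y / 2 ^ r with hq'
    have h7 : q' < q + 2 := by
      by_contra hcon
      push Not at hcon
      have := mul_le_mul_of_nonneg_left hcon hp.le
      nlinarith [hy2.1, hy2.2]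
    have h8 : q - 2 < q' := by
      by_contra hcon
      push Not at hcon
      have := mul_le_mul_of_nonneg_left hcon hp.le
      nlinarith [hy2.1, hy2.2]
    simp only [mem_union, dy, mem_filter]
    have h9 : q' = q - 1 ∨ q' = q ∨ q' = q + 1 := by omega
    rcases h9 with h9 | h9 | h9
    · exact Or.inl (Or.inl ⟨hyA, h9⟩)
    · exact Or.inl (Or.inr ⟨hyA, h9⟩)
    · exact Or.inr ⟨hyA, h9⟩
  have h1 := (card_le_card hsub).trans ((card_union_le _ _).trans
    (Nat.add_le_add_right (card_union_le _ _) _))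
  have h2 : ((A.filter fun y => |x - y| ≤ 2 ^ r).card : ℝ) ≤
      ((dy A r (q - 1)).card : ℝ) + (dy A r q).card + (dy A r (q + 1)).card := by exact_mod_cast h1
  linarith [hB (q - 1), hB q, hB (q + 1)]

/-- Two ends at all dyadic scales give bounded logarithmic energy. -/
lemma energy {m : ℕ} {A : Finset ℤ} {e₀ : ℝ} (he₀ : 0 < e₀) (hA : A ⊆ Finset.Ico 0 (2 ^ m : ℤ))
    (hE : ∀ l ≤ m, ∀ q : ℤ, ((dy A l q).card : ℝ) ≤
      2 * ((2 : ℝ) ^ l / 2 ^ m) ^ e₀ * A.card) {x : ℤ} (hx : x ∈ A) :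
    ∑ y ∈ A, ell (2 ^ m) x y ≤
      (Real.log 2 * (1 + 6 * (1 / (1 - (2 : ℝ) ^ (-e₀))))) * A.card := by
  classical
  have hl2 : 0 < Real.log 2 := Real.log_pos (by norm_num)
  set ρ : ℝ := (2 : ℝ) ^ (-e₀) with hρ
  have hρ0 : 0 < ρ := by positivity
  have hρ1 : ρ < 1 := Real.rpow_lt_one_of_one_lt_of_neg (by norm_num) (by linarith)
  have h1 : ∀ y ∈ A, ell (2 ^ m) x y ≤ Real.log 2 *
      (1 + ∑ j ∈ Finset.Icc 1 m, if |x - y| ≤ 2 ^ (m - j) then (1 : ℝ) else 0) := by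
    intro y hy
    have hx' := mem_Ico.1 (hA hx)
    have hy' := mem_Ico.1 (hA hy)
    have h2 : |x - y| ≤ 2 ^ m := by
      rw [abs_le]; constructor <;> linarith [hx'.1, hx'.2, hy'.1, hy'.2]
    have := ell_le m x y h2
    rwa [← sum_boole] at this
  have h3 : ∀ j ∈ Finset.Icc 1 m, ∑ y ∈ A, (if |x - y| ≤ 2 ^ (m - j) then (1 : ℝ) else 0) ≤
      6 * ρ ^ j * A.card := by
    intro j hj
    have hj := mem_Icc.1 hj
    rw [sum_boole]
    have h4 : ∀ q : ℤ, ((dy A (m - j) q).card : ℝ) ≤ 2 * ρ ^ j * A.card := by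
      intro q
      refine (hE (m - j) (Nat.sub_le _ _) q).trans (le_of_eq ?_)
      have h5 : (2 : ℝ) ^ (m - j) / 2 ^ m = 2 ^ (-(j : ℝ)) := by
        rw [Real.rpow_neg (by norm_num), Real.rpow_natCast]
        have : (2 : ℝ) ^ m = 2 ^ (m - j) * 2 ^ j := by rw [← pow_add]; congr 1; omega
        rw [this]; field_simp
      have h6 : ((2 : ℝ) ^ (m - j) / 2 ^ m) ^ e₀ = ρ ^ j := by
        rw [h5, hρ, ← Real.rpow_mul (by norm_num), ← Real.rpow_natCast, ← Real.rpow_mul (by norm_num)]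
        congr 1; ring
      rw [h6]
    refine (near_card A (m - j) x h4).trans (le_of_eq ?_)
    ring
  have hgeo : ∑ j ∈ Finset.Icc 1 m, ρ ^ j ≤ 1 / (1 - ρ) := by
    have h5 : ∑ j ∈ Finset.Icc 1 m, ρ ^ j ≤ ∑ j ∈ range (m + 1), ρ ^ j := by
      refine sum_le_sum_of_subset_of_nonneg ?_ fun _ _ _ => by positivity
      intro j hj
      have := mem_Icc.1 hj
      exact mem_range.2 (by omega)
    refine h5.trans ?_
    rw [geom_sum_eq hρ1.ne, ← neg_div_neg_eq, neg_sub, neg_sub]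
    refine div_le_div_of_nonneg_right ?_ (by linarith)
    have : 0 < ρ ^ (m + 1) := by positivity
    linarith
  calc ∑ y ∈ A, ell (2 ^ m) x y ≤ ∑ y ∈ A, Real.log 2 *
      (1 + ∑ j ∈ Finset.Icc 1 m, if |x - y| ≤ 2 ^ (m - j) then (1 : ℝ) else 0) := sum_le_sum h1
    _ = Real.log 2 * (A.card + ∑ j ∈ Finset.Icc 1 m,
        ∑ y ∈ A, if |x - y| ≤ 2 ^ (m - j) then (1 : ℝ) else 0) := by
        rw [← mul_sum, sum_add_distrib, sum_comm]
        simp
    _ ≤ Real.log 2 * (A.card + ∑ j ∈ Finset.Icc 1 m, 6 * ρ ^ j * A.card) := by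
        refine mul_le_mul_of_nonneg_left ?_ hl2.le
        linarith [sum_le_sum h3]
    _ = Real.log 2 * (A.card + 6 * (∑ j ∈ Finset.Icc 1 m, ρ ^ j) * A.card) := by
        rw [mul_sum, sum_mul]
    _ ≤ Real.log 2 * (A.card + 6 * (1 / (1 - ρ)) * A.card) := by
        refine mul_le_mul_of_nonneg_left ?_ hl2.le
        have := mul_le_mul_of_nonneg_right (mul_le_mul_of_nonneg_left hgeo
          (by norm_num : (0 : ℝ) ≤ 6)) (Nat.cast_nonneg (α := ℝ) A.card)
        linarith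
    _ = _ := by ring

/-- The form with bounded energy implies the form with two ends. -/
theorem strong_of_dense {d : ℕ} {a lam : ℝ} (h : DenseBound d a lam) : StrongCount d a lam := by
  intro e₀ he₀
  obtain ⟨C, hC, hD⟩ := h (Real.log 2 * (1 + 6 * (1 / (1 - (2 : ℝ) ^ (-e₀)))))
  refine ⟨C, hC, ?_⟩
  intro m N u v A κ R hκ hinj hv hA hcard hE hR
  refine hD (2 ^ m) N u v A κ R (by positivity) hκ hinj (by exact_mod_cast hv)
    (by exact_mod_cast hA) (by exact_mod_cast hcard) ?_ hR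
  intro i x hx
  exact energy he₀ (hA i) (hE i) hx

/-- Module X7a. -/
theorem denseCount_of_dense {d : ℕ} {a lam : ℝ} (ha : 1 ≤ a) (hlam : lam ≤ d)
    (h : DenseBound d a lam) : DenseCount d a :=
  denseCount_of_strong ha hlam (strong_of_dense h)

end Pool.Agent.H70.Dense
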