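import Pool.Agent.H32.Dense.Cfg

/-!
# The glued laws satisfy the facts of the configurations
-/

set_option autoImplicit false

namespace Pool.Agent.H32.Dense

open Finset Real
open Pool.Agent.H49.Ent

section General

variable {Ω : Type*} [Fintype Ω] {S T U V : Type*}

lemma CH_eqOn {q : Ω → ℝ} (hq : ∀ w, 0 ≤ q w) {X X' : Ω → S} {W W' : Ω → T}
    (hX : ∀ w, 0 < q w → X w = X' w) (hW : ∀ w, 0 < q w → W w = W' w) :
    CH q X W = CH q X' W' := by
  refine CH_congr hq ?_ ?_ ?_ ?_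
  · intro w w' a b e
    rw [← hX w a, ← hX w' b]
    exact (Prod.ext_iff.mp e).1
  · intro w w' a b e
    rw [hX w a, hX w' b]
    exact (Prod.ext_iff.mp e).1
  · intro w w' a b e
    rw [← hW w a, ← hW w' b]
    exact e
  · intro w w' a b e
    rw [hW w a, hW w' b]
    exact e

lemma Ex_eqOn {q : Ω → ℝ} (hq : ∀ w, 0 ≤ q w) {f g : Ω → ℝ} (h : ∀ w, 0 < q w → f w = g w) :
    Ex q f = Ex q g :=
  le_antisymm (Ex_mono hq fun w hw => (h w hw).le) (Ex_mono hq fun w hw => (h w hw).ge)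

end General

section Fam

variable {d : ℕ} {Ω : Type} [Fintype Ω] {ζ : Type} {M : ℕ} {p : Ω → ℝ} {Z : Ω → ζ}
  {v : Ω → Fin d → ℤ} {u : Ω → Fin d → ℝ} {τ : Ω → ℤ}

/-- `H(v | Z, τ) ≥ L - K`. -/
lemma IsFam.vt (h : IsFam M p Z v u τ) :
    CH p v Z - Kf M p (bv Z v) τ ≤ CH p v (fun ω => (Z ω, τ ω)) := by
  have hp := h.hp
  have e1 := CH_chain hp v τ Z
  have e2 := CH_chain hp τ v Z
  have e3 : CH p (fun ω => (v ω, τ ω)) Z = CH p (fun ω => (τ ω, v ω)) Z := by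
    refine CH_congr hp ?_ ?_ (fun _ _ _ _ h => h) (fun _ _ _ _ h => h) <;>
    · intro ω ω' _ _ e
      simp only [Prod.mk.injEq] at e ⊢
      tauto
  have e4 : CH p v (fun ω => (τ ω, Z ω)) = CH p v (fun ω => (Z ω, τ ω)) := by
    refine CH_congr hp ?_ ?_ ?_ ?_ <;>
    · intro ω ω' _ _ e
      simp only [Prod.mk.injEq] at e ⊢
      tauto
  have e5 := CH_time_le (M := M) hp h.h1 (τ := τ) h.hτ Z
  unfold Kf bv
  linarith

/-- `H(v | Z, τ, position) ≥ L - K - S`. -/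
lemma IsFam.va (h : IsFam M p Z v u τ) :
    CH p v Z - Kf M p (bv Z v) τ - Sf M p Z v u τ ≤ CH p v (av M Z v u τ) := by
  have hp := h.hp
  have e1 := CH_le_add hp v (fun ω => rd (pos M (u ω) (v ω) (τ ω))) (fun ω => (Z ω, τ ω))
  have e2 : CH p v (fun ω => (rd (pos M (u ω) (v ω) (τ ω)), (Z ω, τ ω))) =
      CH p v (av M Z v u τ) := by
    refine CH_congr hp ?_ ?_ ?_ ?_ <;>
    · intro ω ω' _ _ e
      simp only [av, Prod.mk.injEq] at e ⊢
      tauto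
  have e3 := h.vt
  unfold Sf
  linarith

lemma IsFam.kf : Real.log M - Kf M p (bv Z v) τ = CH p τ (bv Z v) := by
  unfold Kf
  ring

lemma IsFam.of_bv (h : IsFam M p Z v u τ) {x y : Ω} (hx : 0 < p x) (hy : 0 < p y)
    (e : bv Z v x = bv Z v y) : Z y = Z x ∧ v y = v x ∧ u y = u x := by
  have e' := e
  simp only [bv, Prod.mk.injEq] at e'
  exact ⟨e'.2.symm, e'.1.symm, (h.hu x y hx hy (by simp only [Prod.mk.injEq]; exact e')).symm⟩

lemma tri_supp (h : IsFam M p Z v u τ) {w : (Ω × Ω) × Ω} (hw : 0 < tri p (bv Z v) w) :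
    (0 < p w.1.1 ∧ 0 < p w.1.2 ∧ 0 < p w.2) ∧
      (Z w.1.2 = Z w.1.1 ∧ v w.1.2 = v w.1.1 ∧ u w.1.2 = u w.1.1) ∧
      (Z w.2 = Z w.1.1 ∧ v w.2 = v w.1.1 ∧ u w.2 = u w.1.1) := by
  have hp := h.hp
  have h1 := (tri_1 hp).pos (tri_nonneg hp) hw
  have h2 := (tri_2 hp).pos (tri_nonneg hp) hw
  have h3 := (tri_3 hp).pos (tri_nonneg hp) hw
  exact ⟨⟨h1, h2, h3⟩, h.of_bv h1 h2 (tri_eq12 hp hw), h.of_bv h1 h3 (tri_eq13 hp hw)⟩

lemma pP_supp (h : IsFam M p Z v u τ) {w : ((Ω × Ω) × Ω) × (Ω × Ω)}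
    (hw : 0 < pP M p Z v u τ w) :
    0 < tri p (bv Z v) w.1 ∧ (0 < p w.2.1 ∧ 0 < p w.2.2) ∧
      (Z w.2.1 = Z w.1.1.1 ∧ τ w.2.1 = τ w.1.1.1 ∧
        rd (pos M (u w.1.1.1) (v w.1.1.1) (τ w.1.1.1)) =
          rd (pos M (u w.2.1) (v w.2.1) (τ w.1.1.1))) ∧
      (Z w.2.2 = Z w.1.1.1 ∧ v w.2.2 = v w.2.1 ∧ u w.2.2 = u w.2.1) := by
  have hp := h.hp
  have h1 := (pP_fst (M := M) (Z := Z) (v := v) (u := u) (τ := τ) hp).pos (pP_nonneg hp) hw
  have h2 := (pP_snd (M := M) (Z := Z) (v := v) (u := u) (τ := τ) hp).pos (pP_nonneg hp) hw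
  have h3 := (dbl_fst hp).pos (dbl_nonneg hp) h2
  have h4 := (dbl_snd hp).pos (dbl_nonneg hp) h2
  have h5 := h.of_bv h3 h4 (dbl_eq hp h2)
  have h6 := ((glue_pos_iff (tri_nonneg hp) (dbl_nonneg hp) w).mp hw).2.2
  simp only [av, Prod.mk.injEq] at h6
  obtain ⟨⟨a1, a2⟩, a3⟩ := h6
  refine ⟨h1, ⟨h3, h4⟩, ⟨a1.symm, a2.symm, ?_⟩, ⟨h5.1.trans a1.symm, h5.2.1, h5.2.2⟩⟩
  rw [a3, ← a2]

lemma pC_supp (h : IsFam M p Z v u τ) {w : (((Ω × Ω) × Ω) × (Ω × Ω)) × ((Ω × Ω) × Ω)}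
    (hw : 0 < pC M p Z v u τ w) :
    0 < pP M p Z v u τ w.1 ∧ 0 < tri p (bv Z v) w.2 ∧
      (Z w.2.1.1 = Z w.1.1.1.1 ∧ τ w.2.1.1 = τ w.1.1.1.2 ∧
        rd (pos M (u w.1.1.1.1) (v w.1.1.1.1) (τ w.1.1.1.2)) =
          rd (pos M (u w.2.1.1) (v w.2.1.1) (τ w.1.1.1.2))) := by
  have hp := h.hp
  have h1 := (pC_fst (M := M) (Z := Z) (v := v) (u := u) (τ := τ) hp).pos (pC_nonneg hp) hw
  have h2 := (pC_snd (M := M) (Z := Z) (v := v) (u := u) (τ := τ) hp).pos (pC_nonneg hp) hw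
  have h3 := (tri_supp h (pP_supp h h1).1).2.1
  have h6 := ((glue_pos_iff (pP_nonneg hp) (tri_nonneg hp) w).mp hw).2.2
  simp only [av, Prod.mk.injEq] at h6
  obtain ⟨⟨a1, a2⟩, a3⟩ := h6
  refine ⟨h1, h2, ⟨a1.symm.trans h3.1, a2.symm, ?_⟩⟩
  rw [← h3.2.1, ← h3.2.2, a3, ← a2]

/-! ### Independence of the times -/

lemma tri_time2 (hp : ∀ ω, 0 ≤ p ω) :
    CH (tri p (bv Z v)) (fun w => τ w.1.2) (fun w => (bv Z v w.1.2, w.1.1)) =
      CH p τ (bv Z v) := by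
  have e1 := (tri_fst (b := bv Z v) hp).CH (fun w => τ w.2) (fun w => (bv Z v w.2, w.1))
  rw [e1]
  exact CH_dbl_2 hp τ (fun w => w)

lemma tri_time3 (hp : ∀ ω, 0 ≤ p ω) :
    CH (tri p (bv Z v)) (fun w => τ w.2) (fun w => (bv Z v w.2, w.1)) =
      CH p τ (bv Z v) :=
  CH_tri_3 hp τ (fun w => w)

lemma pP_s (h : IsFam M p Z v u τ) :
    CH (pP M p Z v u τ) (fun w => τ w.1.1.2)
      (fun w => ((bv Z v w.1.1.2, w.1.1.1), w.2)) = CH p τ (bv Z v) := by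
  have hp := h.hp
  rw [← tri_time2 (Z := Z) (v := v) (τ := τ) hp]
  exact CH_glue_fst (tri_nonneg hp) (dbl_nonneg hp) (lawP hp) (fun w => τ w.1.2)
    (Y := fun w => (bv Z v w.1.2, w.1.1)) (fun w => w) (fun w w' _ _ e => by
      simp only [Prod.mk.injEq] at e
      simp only [e.2])

lemma pP_t₁ (h : IsFam M p Z v u τ) :
    CH (pP M p Z v u τ) (fun w => τ w.1.2)
      (fun w => ((bv Z v w.1.2, w.1.1), w.2)) = CH p τ (bv Z v) := by
  have hp := h.hp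
  rw [← tri_time3 (Z := Z) (v := v) (τ := τ) hp]
  exact CH_glue_fst (tri_nonneg hp) (dbl_nonneg hp) (lawP hp) (fun w => τ w.2)
    (Y := fun w => (bv Z v w.2, w.1)) (fun w => w) (fun w w' _ _ e => by
      simp only [Prod.mk.injEq] at e
      simp only [e.2])

lemma pP_r (h : IsFam M p Z v u τ) :
    CH (pP M p Z v u τ) (fun w => τ w.2.2)
      (fun w => ((bv Z v w.2.2, w.2.1), w.1)) = CH p τ (bv Z v) := by
  have hp := h.hp
  rw [← CH_dbl_2 (b := bv Z v) hp τ (fun w => w)]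
  exact CH_glue_snd (tri_nonneg hp) (dbl_nonneg hp) (lawP hp) (fun w => τ w.2)
    (Y := fun w => (bv Z v w.2, w.1)) (fun w => w) (fun w w' _ _ e => by
      simp only [Prod.mk.injEq] at e
      simp only [e.2])

lemma pC_tr (h : IsFam M p Z v u τ) :
    CH (pC M p Z v u τ) (fun w => τ w.2.1.2)
      (fun w => ((bv Z v w.2.1.2, w.2.1.1), w.1)) = CH p τ (bv Z v) := by
  have hp := h.hp
  rw [← tri_time2 (Z := Z) (v := v) (τ := τ) hp]
  exact CH_glue_snd (pP_nonneg hp) (tri_nonneg hp) (lawC hp) (fun w => τ w.1.2)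
    (Y := fun w => (bv Z v w.1.2, w.1.1)) (fun w => w) (fun w w' _ _ e => by
      simp only [Prod.mk.injEq] at e
      simp only [e.2])

lemma pC_ρ (h : IsFam M p Z v u τ) :
    CH (pC M p Z v u τ) (fun w => τ w.2.2)
      (fun w => ((bv Z v w.2.2, w.2.1), w.1)) = CH p τ (bv Z v) := by
  have hp := h.hp
  rw [← tri_time3 (Z := Z) (v := v) (τ := τ) hp]
  exact CH_glue_snd (pP_nonneg hp) (tri_nonneg hp) (lawC hp) (fun w => τ w.2)
    (Y := fun w => (bv Z v w.2, w.1)) (fun w => w) (fun w w' _ _ e => by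
      simp only [Prod.mk.injEq] at e
      simp only [e.2])

/-- Given the position, the first line is independent of the second. -/
lemma pP_v₀ (h : IsFam M p Z v u τ) :
    CH (pP M p Z v u τ) (fun w => v w.1.1.1) (fun w => (av M Z v u τ w.1.1.1, w.2)) =
      CH p v (av M Z v u τ) := by
  have hp := h.hp
  rw [← (tri_1 (b := bv Z v) hp).CH v (av M Z v u τ)]
  exact CH_glue_fst (tri_nonneg hp) (dbl_nonneg hp) (lawP hp) (fun w => v w.1.1)
    (Y := fun w => av M Z v u τ w.1.1) (fun w => w) (fun w w' _ _ e => e)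

lemma pP_v₁ (h : IsFam M p Z v u τ) :
    CH (pP M p Z v u τ) (fun w => v w.2.1) (fun w => (av M Z v u τ w.2.1, w.1)) =
      CH p v (av M Z v u τ) := by
  have hp := h.hp
  rw [← (dbl_fst (b := bv Z v) hp).CH v (av M Z v u τ)]
  exact CH_glue_snd (tri_nonneg hp) (dbl_nonneg hp) (lawP hp) (fun w => v w.1)
    (Y := fun w => av M Z v u τ w.1) (fun w => w) (fun w w' _ _ e => e)

lemma pC_v₂ (h : IsFam M p Z v u τ) :
    CH (pC M p Z v u τ) (fun w => v w.2.1.1) (fun w => (av M Z v u τ w.2.1.1, w.1)) =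
      CH p v (av M Z v u τ) := by
  have hp := h.hp
  rw [← (tri_1 (b := bv Z v) hp).CH v (av M Z v u τ)]
  exact CH_glue_snd (pP_nonneg hp) (tri_nonneg hp) (lawC hp) (fun w => v w.1.1)
    (Y := fun w => av M Z v u τ w.1.1) (fun w => w) (fun w w' _ _ e => e)

lemma tri_swap_ex (hp : ∀ ω, 0 ≤ p ω) :
    Ex (tri p (bv Z v)) (fun w => Real.log (1 + |kap (τ w.1.1) (τ w.1.2) (τ w.2)|⁻¹)) =
      Df p (bv Z v) τ := by
  have e := (tri_swap12 (b := bv Z v) hp).ex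
    (fun w => Real.log (1 + |kap (τ w.1.1) (τ w.1.2) (τ w.2)|))
  unfold Df
  rw [← e]
  congr 1
  funext w
  change Real.log (1 + |kap (τ w.1.1) (τ w.1.2) (τ w.2)|⁻¹) =
    Real.log (1 + |kap (τ w.1.2) (τ w.1.1) (τ w.2)|)
  rw [kap_swap (τ w.1.1) (τ w.1.2), abs_inv]

lemma pP_one (h : IsFam M p Z v u τ) : ∑ w, pP M p Z v u τ w = 1 :=
  ((pP_fst h.hp).comp (tri_1 h.hp)).sum.trans h.h1

lemma pC_one (h : IsFam M p Z v u τ) : ∑ w, pC M p Z v u τ w = 1 :=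
  (pC_fst h.hp).sum.trans (pP_one h)

theorem pP_cfg (h : IsFam M p Z v u τ) :
    PCfg M (pP M p Z v u τ) (fun w => Z w.1.1.1) (fun w => v w.1.1.1) (fun w => v w.2.1)
      (fun w => u w.1.1.1) (fun w => u w.2.1) (fun w => τ w.1.1.1) (fun w => τ w.1.1.2)
      (fun w => τ w.1.2) (fun w => τ w.2.2) (CH p v Z) (Sf M p Z v u τ) (Kf M p (bv Z v) τ)
      (Gf M p (bv Z v) τ) (Df p (bv Z v) τ) := by
  have hp := h.hp
  have hq := pP_nonneg (M := M) (Z := Z) (v := v) (u := u) (τ := τ) hp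
  have hF := pP_fst (M := M) (Z := Z) (v := v) (u := u) (τ := τ) hp
  have hS := pP_snd (M := M) (Z := Z) (v := v) (u := u) (τ := τ) hp
  refine
    { hM := h.hM
      hq := hq
      h1 := pP_one h
      hv₀ := fun w hw => h.hv _ (tri_supp h (pP_supp h hw).1).1.1
      hv₁ := fun w hw => h.hv _ (pP_supp h hw).2.1.1
      hu₀ := (hF.comp (tri_1 hp)).det hq h.hu
      hu₁ := ?_
      ht := fun w hw => h.hτ _ (tri_supp h (pP_supp h hw).1).1.1
      hs := fun w hw => h.hτ _ (tri_supp h (pP_supp h hw).1).1.2.1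
      ht₁ := fun w hw => h.hτ _ (tri_supp h (pP_supp h hw).1).1.2.2
      hr := fun w hw => h.hτ _ (pP_supp h hw).2.1.2
      cross := fun w hw => (pP_supp h hw).2.2.1.2.2
      cL := ?_
      cs := ?_
      ct₁ := ?_
      cr := ?_
      Ss := ?_
      St₁ := ?_
      Sr := ?_
      Gst := ?_
      Grt := ?_
      D₁ := ?_
      D₂ := ?_ }
  · intro w w' a b e
    simp only [Prod.mk.injEq] at e
    have s1 := pP_supp h a
    have s2 := pP_supp h b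
    refine h.hu _ _ s1.2.1.1 s2.2.1.1 ?_
    simp only [Prod.mk.injEq]
    exact ⟨e.1, s1.2.2.1.1.trans (e.2.trans s2.2.2.1.1.symm)⟩
  · have e1 := CH_chain hq (fun w => v w.1.1.1) (fun w => v w.2.1)
      (fun w => (Z w.1.1.1, τ w.1.1.1))
    have e2 : CH (pP M p Z v u τ) (fun w => v w.2.1) (fun w => (Z w.1.1.1, τ w.1.1.1)) =
        CH p v (fun ω => (Z ω, τ ω)) := by
      rw [← (hS.comp (dbl_fst hp)).CH v (fun ω => (Z ω, τ ω))]
      refine CH_eqOn hq (fun _ _ => rfl) fun w hw => ?_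
      have s := (pP_supp h hw).2.2.1
      rw [s.1, s.2.1]
    have e3 : CH (pP M p Z v u τ) (fun w => v w.1.1.1)
        (fun w => (av M Z v u τ w.1.1.1, w.2)) ≤ CH (pP M p Z v u τ) (fun w => v w.1.1.1)
        (fun w => (v w.2.1, (Z w.1.1.1, τ w.1.1.1))) := by
      refine CH_mono_cond hq fun w w' _ _ e => ?_
      simp only [av, Prod.mk.injEq] at e ⊢
      refine ⟨?_, e.1.1⟩
      rw [e.2]
    rw [pP_v₀ h] at e3
    have e4 := h.va
    have e5 := h.vt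
    linarith
  · rw [IsFam.kf, ← pP_s h]
    refine CH_mono_cond hq fun w w' _ _ e => ?_
    simp only [Prod.mk.injEq] at e ⊢
    obtain ⟨⟨e0, e1⟩, e2⟩ := e
    simp [e1, e2]
  · rw [IsFam.kf, ← pP_t₁ h]
    refine CH_mono_cond hq fun w w' _ _ e => ?_
    simp only [Prod.mk.injEq] at e ⊢
    obtain ⟨⟨e0, e1⟩, e2⟩ := e
    simp [e1, e2]
  · rw [IsFam.kf, ← pP_r h]
    refine CH_mono_cond hq fun w w' _ _ e => ?_
    simp only [Prod.mk.injEq] at e ⊢
    obtain ⟨⟨e0, e1⟩, e2⟩ := e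
    simp [e1, e2]
  · refine le_of_eq ?_
    unfold Sf
    rw [← (hF.comp (tri_2 hp)).CH (fun ω => rd (pos M (u ω) (v ω) (τ ω)))
      (fun ω => (Z ω, τ ω))]
    refine CH_eqOn hq (fun w hw => ?_) fun w hw => ?_
    · have s := (tri_supp h (pP_supp h hw).1).2.1
      rw [s.2.1, s.2.2]
    · have s := (tri_supp h (pP_supp h hw).1).2.1
      rw [s.1]
  · refine le_of_eq ?_
    unfold Sf
    rw [← (hF.comp (tri_3 hp)).CH (fun ω => rd (pos M (u ω) (v ω) (τ ω)))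
      (fun ω => (Z ω, τ ω))]
    refine CH_eqOn hq (fun w hw => ?_) fun w hw => ?_
    · have s := (tri_supp h (pP_supp h hw).1).2.2
      rw [s.2.1, s.2.2]
    · have s := (tri_supp h (pP_supp h hw).1).2.2
      rw [s.1]
  · refine le_of_eq ?_
    unfold Sf
    rw [← (hS.comp (dbl_snd hp)).CH (fun ω => rd (pos M (u ω) (v ω) (τ ω)))
      (fun ω => (Z ω, τ ω))]
    refine CH_eqOn hq (fun w hw => ?_) fun w hw => ?_
    · have s := (pP_supp h hw).2.2.2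
      rw [s.2.1, s.2.2]
    · have s := (pP_supp h hw).2.2.2
      rw [s.1]
  · refine le_of_eq ?_
    unfold Gf
    rw [← (hF.comp (tri_fst hp)).ex (fun w => ell M (τ w.1) (τ w.2))]
    exact Ex_eqOn hq fun w _ => ell_symm M _ _
  · refine le_of_eq ?_
    unfold Gf
    rw [← hS.ex (fun w => ell M (τ w.1) (τ w.2))]
    refine Ex_eqOn hq fun w hw => ?_
    rw [(pP_supp h hw).2.2.1.2.1]
    exact ell_symm M _ _
  · refine le_of_eq ?_
    unfold Df
    rw [← hF.ex (fun w => Real.log (1 + |kap (τ w.1.1) (τ w.1.2) (τ w.2)|))]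
  · refine le_of_eq ?_
    rw [← tri_swap_ex (Z := Z) (v := v) (τ := τ) hp,
      ← hF.ex (fun w => Real.log (1 + |kap (τ w.1.1) (τ w.1.2) (τ w.2)|⁻¹))]

theorem pC_cfg (h : IsFam M p Z v u τ) :
    CCfg M (pC M p Z v u τ) (fun w => Z w.1.1.1.1) (fun w => v w.1.1.1.1) (fun w => v w.1.2.1)
      (fun w => v w.2.1.1) (fun w => u w.1.1.1.1) (fun w => u w.1.2.1) (fun w => u w.2.1.1)
      (fun w => τ w.1.1.1.1) (fun w => τ w.1.1.1.2) (fun w => τ w.2.1.2) (fun w => τ w.2.2)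
      (fun w => ct (τ w.1.1.1.1) (τ w.1.1.1.2) (τ w.1.1.2) (τ w.1.2.2))
      (CH p v Z) (Sf M p Z v u τ) (Kf M p (bv Z v) τ) (Gf M p (bv Z v) τ) (Df p (bv Z v) τ)
      (etaP M (pP M p Z v u τ) (fun w => Z w.1.1.1) (fun w => v w.1.1.1) (fun w => v w.2.1)
        (fun w => τ w.1.1.1) (fun w => τ w.1.1.2) (fun w => τ w.1.2) (fun w => τ w.2.2))
      (xP M (pP M p Z v u τ) (fun w => Z w.1.1.1) (fun w => v w.1.1.1) (fun w => v w.2.1)
        (fun w => u w.1.1.1) (fun w => τ w.1.1.1) (fun w => τ w.1.1.2) (fun w => τ w.1.2)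
        (fun w => τ w.2.2)) := by
  have hp := h.hp
  have hqP := pP_nonneg (M := M) (Z := Z) (v := v) (u := u) (τ := τ) hp
  have hq := pC_nonneg (M := M) (Z := Z) (v := v) (u := u) (τ := τ) hp
  have hPF := pP_fst (M := M) (Z := Z) (v := v) (u := u) (τ := τ) hp
  have hPS := pP_snd (M := M) (Z := Z) (v := v) (u := u) (τ := τ) hp
  have hF := pC_fst (M := M) (Z := Z) (v := v) (u := u) (τ := τ) hp
  have hS := pC_snd (M := M) (Z := Z) (v := v) (u := u) (τ := τ) hp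
  have hP := pP_cfg h
  refine
    { hM := h.hM
      hq := hq
      h1 := pC_one h
      hv₀ := fun w hw => hP.hv₀ _ (pC_supp h hw).1
      hv₁ := fun w hw => hP.hv₁ _ (pC_supp h hw).1
      hv₂ := fun w hw => h.hv _ (tri_supp h (pC_supp h hw).2.1).1.1
      hu₀ := hF.det hq hP.hu₀
      hu₁ := hF.det hq hP.hu₁
      hu₂ := ?_
      ht := fun w hw => hP.ht _ (pC_supp h hw).1
      hs := fun w hw => hP.hs _ (pC_supp h hw).1
      htr := fun w hw => h.hτ _ (tri_supp h (pC_supp h hw).2.1).1.2.1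
      hρ := fun w hw => h.hτ _ (tri_supp h (pC_supp h hw).2.1).1.2.2
      cross01 := fun w hw => hP.cross _ (pC_supp h hw).1
      cross02 := fun w hw => (pC_supp h hw).2.2.2.2
      cL := ?_
      ctr := ?_
      cc := ?_
      cρ := ?_
      cv₁ := ?_
      Sρ := ?_
      Str := ?_
      hx := ?_
      Gst := ?_
      Gc := ?_
      Dc := ?_
      D₁ := ?_
      D₂ := ?_ }
  · intro w w' a b e
    simp only [Prod.mk.injEq] at e
    have s1 := pC_supp h a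
    have s2 := pC_supp h b
    refine h.hu _ _ (tri_supp h s1.2.1).1.1 (tri_supp h s2.2.1).1.1 ?_
    simp only [Prod.mk.injEq]
    exact ⟨e.1, s1.2.2.1.trans (e.2.trans s2.2.2.1.symm)⟩
  · -- `H(v₀, v₁, v₂ | Z, t, s)`
    have e0 : CH (pC M p Z v u τ) (fun w => (v w.1.1.1.1, v w.1.2.1, v w.2.1.1))
        (fun w => (Z w.1.1.1.1, τ w.1.1.1.1, τ w.1.1.1.2)) =
        CH (pC M p Z v u τ) (fun w => (v w.2.1.1, (v w.1.1.1.1, v w.1.2.1)))
          (fun w => (Z w.1.1.1.1, τ w.1.1.1.1, τ w.1.1.1.2)) := by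
      refine CH_congr hq ?_ ?_ (fun _ _ _ _ h => h) (fun _ _ _ _ h => h) <;>
      · intro ω ω' _ _ e
        simp only [Prod.mk.injEq] at e ⊢
        tauto
    have e1 := CH_chain hq (fun w => v w.2.1.1) (fun w => (v w.1.1.1.1, v w.1.2.1))
      (fun w => (Z w.1.1.1.1, τ w.1.1.1.1, τ w.1.1.1.2))
    have e2 := hF.CH (fun w => (v w.1.1.1, v w.2.1)) (fun w => (Z w.1.1.1, τ w.1.1.1, τ w.1.1.2))
    have e3 : CH (pC M p Z v u τ) (fun w => v w.2.1.1)
        (fun w => (av M Z v u τ w.2.1.1, w.1)) ≤ CH (pC M p Z v u τ) (fun w => v w.2.1.1)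
        (fun w => ((v w.1.1.1.1, v w.1.2.1), (Z w.1.1.1.1, τ w.1.1.1.1, τ w.1.1.1.2))) := by
      refine CH_mono_cond hq fun w w' _ _ e => ?_
      simp only [Prod.mk.injEq] at e ⊢
      simp [e.2]
    rw [pC_v₂ h] at e3
    have e4 := h.va
    -- the pair `0, 1` given `Z, t, s`
    have c1 := CH_chain hqP (fun w => (v w.1.1.1, v w.2.1)) (fun w => τ w.1.1.2)
      (fun w => (Z w.1.1.1, τ w.1.1.1))
    have c2 := CH_chain hqP (fun w => τ w.1.1.2) (fun w => (v w.1.1.1, v w.2.1))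
      (fun w => (Z w.1.1.1, τ w.1.1.1))
    have c3 : CH (pP M p Z v u τ) (fun w => ((v w.1.1.1, v w.2.1), τ w.1.1.2))
        (fun w => (Z w.1.1.1, τ w.1.1.1)) =
        CH (pP M p Z v u τ) (fun w => (τ w.1.1.2, (v w.1.1.1, v w.2.1)))
          (fun w => (Z w.1.1.1, τ w.1.1.1)) := by
      refine CH_congr hqP ?_ ?_ (fun _ _ _ _ h => h) (fun _ _ _ _ h => h) <;>
      · intro ω ω' _ _ e
        simp only [Prod.mk.injEq] at e ⊢
        tauto
    have c4 : CH (pP M p Z v u τ) (fun w => (v w.1.1.1, v w.2.1))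
        (fun w => (τ w.1.1.2, (Z w.1.1.1, τ w.1.1.1))) =
        CH (pP M p Z v u τ) (fun w => (v w.1.1.1, v w.2.1))
          (fun w => (Z w.1.1.1, τ w.1.1.1, τ w.1.1.2)) := by
      refine CH_congr hqP ?_ ?_ ?_ ?_ <;>
      · intro ω ω' _ _ e
        simp only [Prod.mk.injEq] at e ⊢
        tauto
    have c5 := CH_time_le (M := M) hqP (pP_one h) (τ := fun w => τ w.1.1.2) hP.hs
      (fun w => (Z w.1.1.1, τ w.1.1.1))
    have c6 := hP.cs
    have c7 := hP.cL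
    linarith
  · rw [IsFam.kf, ← pC_tr h]
    refine CH_mono_cond hq fun w w' _ _ e => ?_
    simp only [Prod.mk.injEq] at e ⊢
    obtain ⟨⟨e0, e1⟩, e2⟩ := e
    simp [e1, e2]
  · -- the coefficient
    have hdet : Det (pP M p Z v u τ)
        (fun w => ((v w.1.1.1, v w.2.1), Z w.1.1.1, τ w.1.1.1, τ w.1.1.2))
        (fun w => av M Z v u τ w.1.1.2) := by
      intro w w' a b e
      simp only [Prod.mk.injEq] at e
      have s1 := tri_supp h (pP_supp h a).1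
      have s2 := tri_supp h (pP_supp h b).1
      refine h.av_det _ _ s1.1.2.1 s2.1.2.1 ?_
      simp only [bv, Prod.mk.injEq]
      rw [s1.2.1.1, s1.2.1.2.1, s2.2.1.1, s2.2.1.2.1]
      exact ⟨⟨e.1.1, e.2.1⟩, e.2.2.2⟩
    have e1 := CH_glue_fst (pP_nonneg hp) (tri_nonneg hp)
      (lawC (M := M) (Z := Z) (v := v) (u := u) (τ := τ) hp)
      (fun w => ct (τ w.1.1.1) (τ w.1.1.2) (τ w.1.2) (τ w.2.2))
      (Y := fun w => ((v w.1.1.1, v w.2.1), Z w.1.1.1, τ w.1.1.1, τ w.1.1.2)) (fun w => w) hdet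
    have e2 : CH (pC M p Z v u τ)
        (fun w => ct (τ w.1.1.1.1) (τ w.1.1.1.2) (τ w.1.1.2) (τ w.1.2.2))
        (fun w => (((v w.1.1.1.1, v w.1.2.1), Z w.1.1.1.1, τ w.1.1.1.1, τ w.1.1.1.2), w.2)) ≤
        CH (pC M p Z v u τ) (fun w => ct (τ w.1.1.1.1) (τ w.1.1.1.2) (τ w.1.1.2) (τ w.1.2.2))
        (fun w => (τ w.2.2, (v w.1.1.1.1, v w.1.2.1, v w.2.1.1), Z w.1.1.1.1, τ w.1.1.1.1,
          τ w.1.1.1.2, τ w.2.1.2)) := by
      refine CH_mono_cond hq fun w w' _ _ e => ?_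
      simp only [Prod.mk.injEq] at e ⊢
      obtain ⟨⟨⟨e0, e1⟩, e2, e3, e4⟩, e5⟩ := e
      simp [e0, e1, e2, e3, e4, e5]
    refine le_trans (le_of_eq ?_) e2
    refine Eq.trans ?_ e1.symm
    unfold etaP cP
    ring
  · rw [IsFam.kf, ← pC_ρ h]
    refine CH_mono_cond hq fun w w' _ _ e => ?_
    simp only [Prod.mk.injEq] at e ⊢
    obtain ⟨⟨e0, e1⟩, e2⟩ := e
    simp [e1, e2]
  · -- the second line is independent of the first and the third given its position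
    refine h.va.trans ?_
    have hdet : Det (pP M p Z v u τ) (fun w => w.1) (fun w => av M Z v u τ w.1.1.2) := by
      intro w w' a b e
      simp only at e
      simp only [e]
    have e1 := CH_glue_fst (pP_nonneg hp) (tri_nonneg hp)
      (lawC (M := M) (Z := Z) (v := v) (u := u) (τ := τ) hp)
      (fun w => v w.2.1) (Y := fun w => w.1) (fun w => w) hdet
    have e2 : CH (pP M p Z v u τ) (fun w => v w.2.1) (fun w => (av M Z v u τ w.2.1, w.1)) ≤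
        CH (pP M p Z v u τ) (fun w => v w.2.1) (fun w => w.1) := by
      refine CH_mono_cond hqP fun w w' _ _ e => ?_
      exact (Prod.ext_iff.mp e).2
    rw [pP_v₁ h] at e2
    refine e2.trans ((le_of_eq e1.symm).trans ?_)
    refine CH_mono_cond hq fun w w' _ _ e => ?_
    simp only [Prod.mk.injEq] at e ⊢
    obtain ⟨e0, e1⟩ := e
    simp [e0, e1]
  · refine le_of_eq ?_
    unfold Sf
    rw [← (hS.comp (tri_3 hp)).CH (fun ω => rd (pos M (u ω) (v ω) (τ ω)))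
      (fun ω => (Z ω, τ ω))]
    refine CH_eqOn hq (fun w hw => ?_) fun w hw => ?_
    · have s := (tri_supp h (pC_supp h hw).2.1).2.2
      rw [s.2.1, s.2.2]
    · have s := (tri_supp h (pC_supp h hw).2.1).2.2
      rw [s.1, (pC_supp h hw).2.2.1]
  · refine le_of_eq ?_
    unfold Sf
    rw [← (hS.comp (tri_2 hp)).CH (fun ω => rd (pos M (u ω) (v ω) (τ ω)))
      (fun ω => (Z ω, τ ω))]
    refine CH_eqOn hq (fun w hw => ?_) fun w hw => ?_
    · have s := (tri_supp h (pC_supp h hw).2.1).2.1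
      rw [s.2.1, s.2.2]
    · have s := (tri_supp h (pC_supp h hw).2.1).2.1
      rw [s.1, (pC_supp h hw).2.2.1]
  · refine le_of_eq ?_
    exact hF.CH (fun w => xf M (u w.1.1.1) (v w.1.1.1) (τ w.1.1.2)
      (ct (τ w.1.1.1) (τ w.1.1.2) (τ w.1.2) (τ w.2.2)) (v w.2.1))
      (fun w => (Z w.1.1.1, (τ w.1.1.1, τ w.1.1.2,
        ct (τ w.1.1.1) (τ w.1.1.2) (τ w.1.2) (τ w.2.2))))
  · exact le_of_eq_of_le (hF.ex (fun w => ell M (τ w.1.1.2) (τ w.1.1.1))) hP.Gst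
  · have e1 := hF.ex (fun w => Real.log (1 + M / max |(ct (τ w.1.1.1) (τ w.1.1.2) (τ w.1.2)
      (τ w.2.2) : ℝ)| 1))
    refine (le_of_eq e1).trans ?_
    have e2 : Ex (pP M p Z v u τ) (fun w => Real.log (1 + M / max |(ct (τ w.1.1.1) (τ w.1.1.2)
        (τ w.1.2) (τ w.2.2) : ℝ)| 1)) ≤ Ex (pP M p Z v u τ) (fun w => (1 + ell M (τ w.2.2)
        (τ w.1.1.1)) + Real.log (1 + |kap (τ w.1.1.1) (τ w.1.1.2) (τ w.1.2)|⁻¹)) :=
      Ex_mono hqP fun w hw => log_ct h.hM (hP.ht w hw) (hP.hr w hw)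
    rw [Ex_add, Ex_add, Ex_const (pP_one h)] at e2
    have e3 := hP.Grt
    have e4 := hP.D₂
    linarith
  · have e1 := hF.ex (fun w => Real.log (1 + |(ct (τ w.1.1.1) (τ w.1.1.2) (τ w.1.2)
      (τ w.2.2) : ℝ)| / M))
    refine (le_of_eq e1).trans ?_
    have e2 : Ex (pP M p Z v u τ) (fun w => Real.log (1 + |(ct (τ w.1.1.1) (τ w.1.1.2)
        (τ w.1.2) (τ w.2.2) : ℝ)| / M)) ≤ Ex (pP M p Z v u τ) (fun w => 1 +
        Real.log (1 + |kap (τ w.1.1.1) (τ w.1.1.2) (τ w.1.2)|)) :=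
      Ex_mono hqP fun w hw => log_ct_le h.hM (hP.ht w hw) (hP.hr w hw)
    rw [Ex_add, Ex_const (pP_one h)] at e2
    have e3 := hP.D₁
    linarith
  · refine le_of_eq ?_
    unfold Df
    rw [← hS.ex (fun w => Real.log (1 + |kap (τ w.1.1) (τ w.1.2) (τ w.2)|))]
    refine Ex_eqOn hq fun w hw => ?_
    rw [(pC_supp h hw).2.2.2.1]
  · refine le_of_eq ?_
    rw [← tri_swap_ex (Z := Z) (v := v) (τ := τ) hp,
      ← hS.ex (fun w => Real.log (1 + |kap (τ w.1.1) (τ w.1.2) (τ w.2)|⁻¹))]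
    refine Ex_eqOn hq fun w hw => ?_
    rw [(pC_supp h hw).2.2.2.1]

/-- The pair (0, 2), crossing at `s`, has the law of the pair (0, 1); `pC_02`. -/
theorem ab_le_m (h : IsFam M p Z v u τ) :
    abP M (pP M p Z v u τ) (fun w => Z w.1.1.1) (fun w => v w.1.1.1) (fun w => v w.2.1)
      (fun w => u w.1.1.1) (fun w => u w.2.1) (fun w => τ w.1.1.1) (fun w => τ w.1.1.2)
      (fun w => τ w.1.2) (fun w => τ w.2.2) ≤
    mC M (pC M p Z v u τ) (fun w => Z w.1.1.1.1) (fun w => v w.1.1.1.1) (fun w => v w.2.1.1)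
      (fun w => u w.1.1.1.1) (fun w => u w.2.1.1) (fun w => τ w.1.1.1.1) (fun w => τ w.1.1.1.2)
      (fun w => τ w.2.1.2) := by
  have hp := h.hp
  have hq := pC_nonneg (M := M) (Z := Z) (v := v) (u := u) (τ := τ) hp
  have e1 := (pC_02 (M := M) (Z := Z) (v := v) (u := u) (τ := τ) hp).CH
    (fun w => (rd (pos M (u w.1.1.1) (v w.1.1.1) (τ w.1.2)),
      rd (pos M (u w.2.1) (v w.2.1) (τ w.2.2))))
    (fun w => (Z w.1.1.1, τ w.1.1.1, τ w.1.1.2, τ w.1.2, τ w.2.2))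
  unfold abP mC
  refine le_trans (le_of_eq e1.symm) ?_
  have e2 : CH (pC M p Z v u τ) (fun w => (rd (pos M (u w.1.1.1.2) (v w.1.1.1.2) (τ w.1.1.1.1)),
      rd (pos M (u w.2.1.1) (v w.2.1.1) (τ w.2.1.2))))
      (fun w => (Z w.1.1.1.2, τ w.1.1.1.2, τ w.1.1.2, τ w.1.1.1.1, τ w.2.1.2)) =
      CH (pC M p Z v u τ) (fun w => (rd (pos M (u w.1.1.1.1) (v w.1.1.1.1) (τ w.1.1.1.1)),
      rd (pos M (u w.2.1.1) (v w.2.1.1) (τ w.2.1.2))))
      (fun w => (Z w.1.1.1.1, τ w.1.1.1.2, τ w.1.1.2, τ w.1.1.1.1, τ w.2.1.2)) := by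
    refine CH_eqOn hq (fun w hw => ?_) fun w hw => ?_
    · have s := (tri_supp h (pP_supp h (pC_supp h hw).1).1).2.1
      rw [s.2.1, s.2.2]
    · have s := (tri_supp h (pP_supp h (pC_supp h hw).1).1).2.1
      rw [s.1]
  refine le_trans (le_of_eq e2) ?_
  refine CH_mono_cond hq fun w w' _ _ e => ?_
  simp only [Prod.mk.injEq] at e ⊢
  tauto

end Fam

end Pool.Agent.H32.Dense
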